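import Mathlib

/-!
# Sums over integer vectors with four coordinates
-/

set_option autoImplicit false

open Set MeasureTheory

namespace Q271.LM

abbrev Z4 := ℤ × ℤ × ℤ × ℤ

/-- the real vector -/
def cv (n : Z4) : ℝ × ℝ × ℝ × ℝ := (n.1, n.2.1, n.2.2.1, n.2.2.2)

lemma norm_cv (n : Z4) : ‖cv n‖ = ‖n‖ := by
  simp only [cv, Prod.norm_def, Int.norm_eq_abs, Real.norm_eq_abs]

lemma cv_ne {n : Z4} (h : n ≠ 0) : cv n ≠ 0 := by
  intro h0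
  apply h
  simp only [cv, Prod.ext_iff, Prod.fst_zero, Prod.snd_zero, Int.cast_eq_zero] at h0 ⊢
  exact h0

lemma one_le {n : Z4} (h : n ≠ 0) : 1 ≤ ‖n‖ := by
  by_contra hc
  push Not at hc
  apply h
  simp only [Prod.norm_def, Int.norm_eq_abs, sup_lt_iff] at hc
  obtain ⟨h1, h2, h3, h4⟩ := hc
  have k : ∀ z : ℤ, |(z : ℝ)| < 1 → z = 0 := by
    intro z hz
    have : |z| < 1 := by exact_mod_cast hz
    exact Int.abs_lt_one_iff.1 this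
  simp only [Prod.ext_iff, Prod.fst_zero, Prod.snd_zero]
  exact ⟨k _ h1, k _ h2, k _ h3, k _ h4⟩

noncomputable def wt (k : ℤ) : ℝ := 1 / (max 1 |(k : ℝ)|) ^ 2

lemma wt_nn (k : ℤ) : 0 ≤ wt k := by unfold wt; positivity

lemma wt_sum : Summable wt := by
  have h1 : Summable fun k : ℤ => 1 / |(k : ℝ)| ^ 2 := by
    have := (Real.summable_one_div_int_pow (p := 2)).2 (by norm_num)
    simpa [sq_abs] using this
  have h2 : Summable fun k : ℤ => (if k = 0 then (1 : ℝ) else 0) + 1 / |(k : ℝ)| ^ 2 := by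
    refine Summable.add ?_ h1
    exact (hasSum_ite_eq (0 : ℤ) (1 : ℝ)).summable
  refine Summable.of_nonneg_of_le wt_nn (fun k => ?_) h2
  by_cases hk : k = 0
  · simp [hk, wt]
  · have : (1 : ℝ) ≤ |(k : ℝ)| := by
      have : (1 : ℤ) ≤ |k| := Int.one_le_abs hk
      exact_mod_cast this
    simp only [hk, if_false, zero_add, wt]
    rw [max_eq_right this]

noncomputable def wt4 (n : Z4) : ℝ := wt n.1 * (wt n.2.1 * (wt n.2.2.1 * wt n.2.2.2))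

lemma wt4_nn (n : Z4) : 0 ≤ wt4 n :=
  mul_nonneg (wt_nn _) (mul_nonneg (wt_nn _) (mul_nonneg (wt_nn _) (wt_nn _)))

lemma wt4_sum : Summable wt4 := by
  have h2 : Summable fun n : ℤ × ℤ => wt n.1 * wt n.2 := wt_sum.mul_of_nonneg wt_sum wt_nn wt_nn
  have h3 : Summable fun n : ℤ × ℤ × ℤ => wt n.1 * (wt n.2.1 * wt n.2.2) :=
    wt_sum.mul_of_nonneg h2 wt_nn fun n => mul_nonneg (wt_nn _) (wt_nn _)
  exact wt_sum.mul_of_nonneg h3 wt_nn fun n => mul_nonneg (wt_nn _) (mul_nonneg (wt_nn _) (wt_nn _))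

lemma pow_le_wt {n : Z4} (h : 1 ≤ ‖n‖) : 1 / ‖n‖ ^ 8 ≤ wt4 n := by
  have hn : 0 < ‖n‖ := by linarith
  have c1 : ‖n.1‖ ≤ ‖n‖ := norm_fst_le n
  have c2 : ‖n.2.1‖ ≤ ‖n‖ := (norm_fst_le n.2).trans (norm_snd_le n)
  have c3 : ‖n.2.2.1‖ ≤ ‖n‖ := (norm_fst_le n.2.2).trans ((norm_snd_le n.2).trans (norm_snd_le n))
  have c4 : ‖n.2.2.2‖ ≤ ‖n‖ := (norm_snd_le n.2.2).trans ((norm_snd_le n.2).trans (norm_snd_le n))
  have k : ∀ z : ℤ, ‖z‖ ≤ ‖n‖ → 1 / ‖n‖ ^ 2 ≤ wt z := by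
    intro z hz
    unfold wt
    rw [Int.norm_eq_abs] at hz
    have h1 : max 1 |(z : ℝ)| ≤ ‖n‖ := max_le h hz
    have h0 : 0 < max 1 |(z : ℝ)| := by positivity
    exact one_div_le_one_div_of_le (by positivity) (pow_le_pow_left₀ h0.le h1 2)
  have e : 1 / ‖n‖ ^ 8 = 1 / ‖n‖ ^ 2 * (1 / ‖n‖ ^ 2 * (1 / ‖n‖ ^ 2 * (1 / ‖n‖ ^ 2))) := by
    field_simp
  rw [e]
  unfold wt4
  have p : 0 ≤ 1 / ‖n‖ ^ 2 := by positivity
  exact mul_le_mul (k _ c1) (mul_le_mul (k _ c2) (mul_le_mul (k _ c3) (k _ c4) p (wt_nn _)) (by positivity)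
    (wt_nn _)) (by positivity) (wt_nn _)

/-- the total weight -/
noncomputable def TT : ℝ := ∑' n : Z4, wt4 n

lemma TT_nn : 0 ≤ TT := tsum_nonneg wt4_nn

lemma cnt (S : Z4 → Set ℝ) {K H : ℝ} (hK : 0 ≤ K) (hH : 1 ≤ H) (e : ℕ)
    (h : ∀ n : Z4, H ≤ ‖n‖ → volume (S n) ≤ ENNReal.ofReal (K / ‖n‖ ^ (e + 8))) :
    volume (⋃ n ∈ {n : Z4 | H ≤ ‖n‖}, S n) ≤ ENNReal.ofReal (TT * K / H ^ e) := by
  have h1 : (⋃ n ∈ {n : Z4 | H ≤ ‖n‖}, S n) = ⋃ n : Z4, ⋃ (_ : H ≤ ‖n‖), S n := rfl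
  rw [h1]
  refine (measure_iUnion_le _).trans ?_
  have h2 : ∀ n : Z4, volume (⋃ (_ : H ≤ ‖n‖), S n) ≤ ENNReal.ofReal (wt4 n * (K / H ^ e)) := by
    intro n
    by_cases hn : H ≤ ‖n‖
    · have e1 : (⋃ (_ : H ≤ ‖n‖), S n) = S n := by simp [hn]
      rw [e1]
      refine (h n hn).trans (ENNReal.ofReal_le_ofReal ?_)
      have hn1 : 1 ≤ ‖n‖ := hH.trans hn
      have h3 := pow_le_wt hn1
      have hn0 : 0 < ‖n‖ := by linarith
      have hH0 : 0 < H := by linarith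
      have h4 : 1 / ‖n‖ ^ e ≤ 1 / H ^ e :=
        one_div_le_one_div_of_le (by positivity) (pow_le_pow_left₀ hH0.le hn e)
      calc K / ‖n‖ ^ (e + 8) = K * (1 / ‖n‖ ^ e) * (1 / ‖n‖ ^ 8) := by
            rw [pow_add]; field_simp
        _ ≤ K * (1 / H ^ e) * wt4 n := by
            gcongr
        _ = wt4 n * (K / H ^ e) := by ring
    · simp [hn]
  refine (ENNReal.tsum_le_tsum h2).trans ?_
  rw [← ENNReal.ofReal_tsum_of_nonneg (fun n => mul_nonneg (wt4_nn n) (by positivity))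
    (wt4_sum.mul_right _), tsum_mul_right]
  apply ENNReal.ofReal_le_ofReal
  unfold TT
  rw [mul_div_assoc]

end Q271.LM
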