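import Pool.Agent.Q271.LM.Wr
import Pool.Agent.Q271.LM.Cnt

/-!
# The form on the curves
-/

set_option autoImplicit false

open Set MeasureTheory Topology

namespace Q271.LM

/-- the form -/
def Psi (y s : ℝ) (n : Z4) : ℝ := n.1 + n.2.1 * s + n.2.2.1 * y + n.2.2.2 * (s * y)

/-- the coefficients on the curve `s = (α - f) / β` -/
noncomputable def mv (α β : ℝ) (n : Z4) : ℝ × ℝ × ℝ × ℝ :=
  (n.1 + n.2.1 * (α / β), -(n.2.1 / β), n.2.2.1 + n.2.2.2 * (α / β), -(n.2.2.2 / β))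

lemma comb_mv (f g : ℝ → ℝ) {α β : ℝ} (hβ : β ≠ 0) (n : Z4) (x : ℝ) :
    Comb f g (mv α β n) x = Psi (g x) ((α - f x) / β) n := by
  unfold Comb mv Psi
  field_simp
  ring

lemma norm_mv {α β : ℝ} (hβ : β ≠ 0) (n : Z4) : ‖n‖ ≤ (1 + |α| + |β|) * ‖mv α β n‖ := by
  set m := mv α β n with hm
  have c1 : |m.1| ≤ ‖m‖ := norm_fst_le m
  have c2 : |m.2.1| ≤ ‖m‖ := (norm_fst_le m.2).trans (norm_snd_le m)
  have c3 : |m.2.2.1| ≤ ‖m‖ := (norm_fst_le m.2.2).trans ((norm_snd_le m.2).trans (norm_snd_le m))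
  have c4 : |m.2.2.2| ≤ ‖m‖ := (norm_snd_le m.2.2).trans ((norm_snd_le m.2).trans (norm_snd_le m))
  have e2 : (n.2.1 : ℝ) = -(β * m.2.1) := by rw [hm]; unfold mv; field_simp
  have e4 : (n.2.2.2 : ℝ) = -(β * m.2.2.2) := by rw [hm]; unfold mv; field_simp
  have e1 : (n.1 : ℝ) = m.1 + α * m.2.1 := by rw [hm]; unfold mv; field_simp; ring
  have e3 : (n.2.2.1 : ℝ) = m.2.2.1 + α * m.2.2.2 := by rw [hm]; unfold mv; field_simp; ring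
  have hα := abs_nonneg α
  have hβ' := abs_nonneg β
  have hm0 := norm_nonneg m
  rw [← norm_cv]
  refine norm4 ?_ ?_ ?_ ?_
  · show |(n.1 : ℝ)| ≤ _
    rw [e1]
    have h1 := abs_add_le m.1 (α * m.2.1)
    rw [abs_mul] at h1
    nlinarith [mul_le_mul_of_nonneg_left c2 hα]
  · show |(n.2.1 : ℝ)| ≤ _
    rw [e2, abs_neg, abs_mul]
    nlinarith [mul_le_mul_of_nonneg_left c2 hβ']
  · show |(n.2.2.1 : ℝ)| ≤ _
    rw [e3]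
    have h1 := abs_add_le m.2.2.1 (α * m.2.2.2)
    rw [abs_mul] at h1
    nlinarith [mul_le_mul_of_nonneg_left c4 hα]
  · show |(n.2.2.2 : ℝ)| ≤ _
    rw [e4, abs_neg, abs_mul]
    nlinarith [mul_le_mul_of_nonneg_left c4 hβ']

lemma mv_ne {α β : ℝ} (hβ : β ≠ 0) {n : Z4} (hn : n ≠ 0) : mv α β n ≠ 0 := by
  intro h
  have := norm_mv (α := α) hβ n
  rw [h, norm_zero, mul_zero] at this
  linarith [one_le hn]

/-- the measure of the bad points, one vector -/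
lemma pt {f g : ℝ → ℝ} {R x0 : ℝ} (hf : AnalyticOnNhd ℝ f (Ioo 0 R)) (hg : AnalyticOnNhd ℝ g (Ioo 0 R))
    (hx0 : x0 ∈ Ioo 0 R) (hW : W f g x0 ≠ 0) (L : ℝ) :
    ∃ ρ > 0, ∃ C : ℝ, 1 ≤ C ∧ ∀ α β : ℝ, β ≠ 0 → 1 + |α| + |β| ≤ L → ∀ e : ℕ, 1 ≤ e → ∀ n : Z4, C ≤ ‖n‖ →
      volume {x | x ∈ Ioo (x0 - ρ) (x0 + ρ) ∧ |Psi (g x) ((α - f x) / β) n| ≤ ‖n‖ / ‖n‖ ^ (3 * e)} ≤
        ENNReal.ofReal (14 * C / ‖n‖ ^ e) := by
  obtain ⟨ρ, hρ, c, hc, -, h⟩ := sub f g _ isOpen_Ioo hf hg hx0 hW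
  refine ⟨ρ, hρ, max 1 (L / c), le_max_left _ _, fun α β hβ hL e he n hn => ?_⟩
  set C := max 1 (L / c) with hC
  have hC1 : 1 ≤ C := le_max_left _ _
  have hn1 : 1 ≤ ‖n‖ := hC1.trans hn
  have hn0 : n ≠ 0 := by
    rintro rfl
    rw [norm_zero] at hn1
    linarith
  have hnp : 0 < ‖n‖ := by linarith
  have hd : C / ‖n‖ ^ e ≤ 1 := by
    rw [div_le_one (by positivity)]
    exact hn.trans (le_self_pow₀ hn1 (by omega))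
  have h1 := h (mv α β n) (mv_ne hβ hn0) (C / ‖n‖ ^ e) (by positivity) hd
  refine (measure_mono ?_).trans (h1.trans (by rw [mul_div_assoc]))
  rintro x ⟨hx, hx2⟩
  refine ⟨hx, ?_⟩
  rw [comb_mv f g hβ]
  refine hx2.trans ?_
  have h2 := norm_mv (α := α) hβ n
  have hmn := norm_nonneg (mv α β n)
  have h3 : ‖n‖ ≤ L * ‖mv α β n‖ := h2.trans (mul_le_mul_of_nonneg_right hL hmn)
  have h4 : L ≤ c * C := by
    have := le_max_right 1 (L / c)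
    rw [← hC, div_le_iff₀ hc] at this
    linarith
  have h5 : ‖n‖ ≤ c * C * ‖mv α β n‖ := h3.trans (mul_le_mul_of_nonneg_right h4 hmn)
  have h6 : C ≤ C ^ 3 := le_self_pow₀ hC1 (by norm_num)
  have h7 : c * C * ‖mv α β n‖ ≤ c * C ^ 3 * ‖mv α β n‖ := by gcongr
  have h8 : c * (C / ‖n‖ ^ e) ^ 3 * ‖mv α β n‖ = c * C ^ 3 * ‖mv α β n‖ / ‖n‖ ^ (3 * e) := by
    rw [div_pow, ← pow_mul, mul_comm e 3]
    ring
  rw [h8]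
  gcongr
  linarith

lemma pts {f : ℝ → ℝ} {G : ℕ → ℝ → ℝ} {R x0 : ℝ} (hf : AnalyticOnNhd ℝ f (Ioo 0 R))
    (hg : ∀ k, AnalyticOnNhd ℝ (G k) (Ioo 0 R))
    (hx0 : x0 ∈ Ioo 0 R) (hW : ∀ k, W f (G k) x0 ≠ 0) (L : ℝ) (K : ℕ) :
    ∃ ρ > 0, ∃ C : ℝ, 1 ≤ C ∧ ∀ k < K, ∀ α β : ℝ, β ≠ 0 → 1 + |α| + |β| ≤ L → ∀ e : ℕ, 1 ≤ e → ∀ n : Z4, C ≤ ‖n‖ →
      volume {x | x ∈ Ioo (x0 - ρ) (x0 + ρ) ∧ |Psi (G k x) ((α - f x) / β) n| ≤ ‖n‖ / ‖n‖ ^ (3 * e)} ≤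
        ENNReal.ofReal (14 * C / ‖n‖ ^ e) := by
  induction K with
  | zero => exact ⟨1, one_pos, 1, le_rfl, fun k hk => absurd hk (Nat.not_lt_zero _)⟩
  | succ K ih =>
    obtain ⟨ρ1, hρ1, C1, hC1, h1⟩ := ih
    obtain ⟨ρ2, hρ2, C2, hC2, h2⟩ := pt hf (hg K) hx0 (hW K) L
    refine ⟨min ρ1 ρ2, lt_min hρ1 hρ2, max C1 C2, hC1.trans (le_max_left _ _), ?_⟩
    intro k hk α β hβ hL e he n hn
    have hn0 : 0 < ‖n‖ := by linarith [le_max_left C1 C2]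
    rcases Nat.lt_succ_iff_lt_or_eq.1 hk with hk' | rfl
    · refine (measure_mono ?_).trans ((h1 k hk' α β hβ hL e he n ((le_max_left _ _).trans hn)).trans
        (ENNReal.ofReal_le_ofReal ?_))
      · rintro x ⟨hx, hx2⟩
        exact ⟨Ioo_subset_Ioo (by linarith [min_le_left ρ1 ρ2]) (by linarith [min_le_left ρ1 ρ2]) hx, hx2⟩
      · gcongr
        exact le_max_left _ _
    · refine (measure_mono ?_).trans ((h2 α β hβ hL e he n ((le_max_right _ _).trans hn)).trans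
        (ENNReal.ofReal_le_ofReal ?_))
      · rintro x ⟨hx, hx2⟩
        exact ⟨Ioo_subset_Ioo (by linarith [min_le_right ρ1 ρ2]) (by linarith [min_le_right ρ1 ρ2]) hx, hx2⟩
      · gcongr
        exact le_max_right _ _

/-- the measure of all bad points -/
lemma bad {f : ℝ → ℝ} {G : ℕ → ℝ → ℝ} {x0 ρ C L : ℝ} {K : ℕ} (hC : 1 ≤ C)
    (h : ∀ k < K, ∀ α β : ℝ, β ≠ 0 → 1 + |α| + |β| ≤ L → ∀ e : ℕ, 1 ≤ e → ∀ n : Z4, C ≤ ‖n‖ →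
      volume {x | x ∈ Ioo (x0 - ρ) (x0 + ρ) ∧ |Psi (G k x) ((α - f x) / β) n| ≤ ‖n‖ / ‖n‖ ^ (3 * e)} ≤
        ENNReal.ofReal (14 * C / ‖n‖ ^ e)) {α β : ℝ} (hβ : β ≠ 0) (hL : 1 + |α| + |β| ≤ L) (e : ℕ)
    {H : ℝ} (hH : C ≤ H) {ρ' : ℝ} (hρ : ρ' ≤ ρ) :
    volume {x | x ∈ Ioo (x0 - ρ') (x0 + ρ') ∧ ∃ k < K, ∃ n : Z4, H ≤ ‖n‖ ∧
      |Psi (G k x) ((α - f x) / β) n| ≤ ‖n‖ / ‖n‖ ^ (3 * (e + 8))} ≤
        ENNReal.ofReal (K * (TT * (14 * C) / H ^ e)) := by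
  have hH1 : 1 ≤ H := hC.trans hH
  have h1 : ∀ k < K, volume (⋃ n ∈ {n : Z4 | H ≤ ‖n‖}, {x | x ∈ Ioo (x0 - ρ) (x0 + ρ) ∧
      |Psi (G k x) ((α - f x) / β) n| ≤ ‖n‖ / ‖n‖ ^ (3 * (e + 8))}) ≤ ENNReal.ofReal (TT * (14 * C) / H ^ e) := by
    intro k hk
    exact cnt _ (by linarith) hH1 e fun n hn => h k hk α β hβ hL (e + 8) (by omega) n (hH.trans hn)
  have hT := TT_nn
  calc volume {x | x ∈ Ioo (x0 - ρ') (x0 + ρ') ∧ ∃ k < K, ∃ n : Z4, H ≤ ‖n‖ ∧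
      |Psi (G k x) ((α - f x) / β) n| ≤ ‖n‖ / ‖n‖ ^ (3 * (e + 8))}
      ≤ volume (⋃ k ∈ Finset.range K, ⋃ n ∈ {n : Z4 | H ≤ ‖n‖}, {x | x ∈ Ioo (x0 - ρ) (x0 + ρ) ∧
      |Psi (G k x) ((α - f x) / β) n| ≤ ‖n‖ / ‖n‖ ^ (3 * (e + 8))}) := by
        refine measure_mono ?_
        rintro x ⟨hx, k, hk, n, hn, hx2⟩
        simp only [mem_iUnion, Finset.mem_range]
        exact ⟨k, hk, n, hn, Ioo_subset_Ioo (by linarith) (by linarith) hx, hx2⟩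
    _ ≤ ∑ k ∈ Finset.range K, volume (⋃ n ∈ {n : Z4 | H ≤ ‖n‖}, {x | x ∈ Ioo (x0 - ρ) (x0 + ρ) ∧
      |Psi (G k x) ((α - f x) / β) n| ≤ ‖n‖ / ‖n‖ ^ (3 * (e + 8))}) := measure_biUnion_finset_le _ _
    _ ≤ ∑ k ∈ Finset.range K, ENNReal.ofReal (TT * (14 * C) / H ^ e) :=
        Finset.sum_le_sum fun k hk => h1 k (Finset.mem_range.1 hk)
    _ = ENNReal.ofReal (K * (TT * (14 * C) / H ^ e)) := by
        rw [Finset.sum_const, Finset.card_range, nsmul_eq_mul,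
          ENNReal.ofReal_mul (Nat.cast_nonneg K), ENNReal.ofReal_natCast]

end Q271.LM
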