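import Pool.Agent.Q271.LiouvilleDef

/-!
# Matrix extensions of real analytic functions
-/

set_option autoImplicit false

open Filter Topology

namespace Q271.LM

/-- the Taylor coefficients at `0` -/
noncomputable def coeff (h : ℝ → ℝ) (j : ℕ) : ℝ := iteratedDeriv j h 0 / j.factorial

/-- the Taylor series of `h` at `0`, evaluated at the matrix `A`, converges to `B` -/
def Ext {n : ℕ} (h : ℝ → ℝ) (A B : Matrix (Fin n) (Fin n) ℝ) : Prop :=
  Tendsto (fun N : ℕ => ∑ j ∈ Finset.range N, coeff h j • A ^ j) atTop (𝓝 B)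

/-- `h` and `τ_{a,b,c,d} ∘ g` coincide on `I`, where `τ_{a,b,c,d}(z) = (a z + b) / (c z + d)` -/
def Coincide (I : Set ℝ) (h g : ℝ → ℝ) (a b c d : ℝ) : Prop :=
  ∀ x ∈ I, c * g x + d ≠ 0 ∧ h x = (a * g x + b) / (c * g x + d)

end Q271.LM
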