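import Pool.Agent.Q271.LM.Tay

/-!
# Finitely many functions have a common radius of convergence
-/

set_option autoImplicit false

open Set

namespace Q271.LM

lemma radius_mono {h : ℝ → ℝ} {r s : ℝ} (hs : 0 ≤ s) (hsr : s ≤ r)
    (h1 : Summable fun j : ℕ => |coeff h j| * r ^ j) : Summable fun j : ℕ => |coeff h j| * s ^ j := by
  refine Summable.of_nonneg_of_le (fun j => by positivity) (fun j => ?_) h1
  gcongr

lemma finite_radius {f : ℕ → ℝ → ℝ} (hf : (range f).Finite) (ha : ∀ k, AnalyticAt ℝ (f k) 0) :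
    ∃ r > 0, ∀ k, Summable fun j : ℕ => |coeff (f k) j| * r ^ j := by
  have key : ∀ S : Set (ℝ → ℝ), S.Finite → (∀ h ∈ S, AnalyticAt ℝ h 0) →
      ∃ r > 0, ∀ h ∈ S, Summable fun j : ℕ => |coeff h j| * r ^ j := by
    intro S hS
    induction S, hS using Set.Finite.induction_on with
    | empty => exact fun _ => ⟨1, one_pos, fun h hh => absurd hh (Set.notMem_empty h)⟩
    | insert _ _ ih =>
      intro hS
      obtain ⟨r1, hr1, h1⟩ := ih fun h hh => hS h (Set.mem_insert_of_mem _ hh)
      obtain ⟨r2, hr2, h2⟩ := exists_rad (hS _ (Set.mem_insert _ _))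
      refine ⟨min r1 r2, lt_min hr1 hr2, fun h hh => ?_⟩
      rcases hh with rfl | hh
      · exact h2 _ (by positivity) (min_le_right _ _)
      · exact radius_mono (by positivity) (min_le_left _ _) (h1 h hh)
  obtain ⟨r, hr, h⟩ := key _ hf (by rintro _ ⟨k, rfl⟩; exact ha k)
  exact ⟨r, hr, fun k => h _ ⟨k, rfl⟩⟩

end Q271.LM
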