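import Pool.Agent.Q271.LM.Pick

/-!
# The limit point
-/

set_option autoImplicit false

open Set MeasureTheory Topology Filter

namespace Q271.LM

/-- a good point, a radius and a threshold, with the promise of a next point -/
structure Stage (c : Ctx) (e : ℕ → ℕ × ℕ × Z4) (K : ℕ) (s : (ℝ × ℝ × ℝ) × ℝ × ℝ) : Prop where
  good : Good c K s.1
  pos : 0 < s.2.1
  keep : ∀ ω, dist ω s.1 ≤ s.2.1 → ∀ k < K, ∀ n : Z4, n ≠ 0 → ‖n‖ ≤ s.2.2 →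
    |Psi (c.G k s.1.1) (sl s.1) n| / 2 ≤ |Psi (c.G k ω.1) (sl ω) n|
  next : ∃ ω1, dist ω1 s.1 < s.2.1 ∧ Good c (K + 1) ω1 ∧ (∀ k < K + 1, ∀ n : Z4, s.2.2 ≤ ‖n‖ →
      ‖n‖ / ‖n‖ ^ 108 ≤ |Psi (c.G k ω1.1) (sl ω1) n|) ∧
      (∃ Q : ℕ, 2 ≤ Q ∧ ∃ a b : ℤ, (Q : ℝ) * al c (e K).1 ω1 = a ∧ (Q : ℝ) * be c (e K).1 ω1 = b) ∧
      Psi (c.F (e K).2.1 ω1.1) (sl ω1) (e K).2.2 ≠ 0

/-- what holds near the next point -/
def Near (c : Ctx) (e : ℕ → ℕ × ℕ × Z4) (K : ℕ) (s : (ℝ × ℝ × ℝ) × ℝ × ℝ) (ω : ℝ × ℝ × ℝ) : Prop :=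
  dist ω s.1 ≤ s.2.1 ∧ (∃ Q : ℕ, 2 ≤ Q ∧ ∃ a b : ℤ, |(Q : ℝ) * al c (e K).1 ω - a| < ((Q : ℝ) ^ K)⁻¹ ∧
    |(Q : ℝ) * be c (e K).1 ω - b| < ((Q : ℝ) ^ K)⁻¹) ∧ Psi (c.F (e K).2.1 ω.1) (sl ω) (e K).2.2 ≠ 0

structure Nxt (c : Ctx) (e : ℕ → ℕ × ℕ × Z4) (K : ℕ) (s s' : (ℝ × ℝ × ℝ) × ℝ × ℝ) : Prop where
  near : ∀ ω, dist ω s'.1 ≤ s'.2.1 → Near c e K s ω
  big : ((K + 1 : ℕ) : ℝ) ≤ s'.2.2
  low : ∀ k < K + 1, ∀ n : Z4, s.2.2 ≤ ‖n‖ → ‖n‖ / ‖n‖ ^ 108 ≤ |Psi (c.G k s'.1.1) (sl s'.1) n|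

lemma cont_sl {ω : ℝ × ℝ × ℝ} (ht : ω.2.2 ≠ 0) : ContinuousAt sl ω := by
  unfold sl
  fun_prop (disch := assumption)

lemma cont_F (c : Ctx) (i : ℕ) {ω : ℝ × ℝ × ℝ} (hm : ω.1 ∈ Ioo 0 c.R) :
    ContinuousAt (fun ω : ℝ × ℝ × ℝ => c.F i ω.1) ω :=
  ContinuousAt.comp (g := c.F i) (f := fun ω : ℝ × ℝ × ℝ => ω.1) (c.hF i _ hm).continuousAt
    continuous_fst.continuousAt

lemma cont_al (c : Ctx) (i : ℕ) {ω : ℝ × ℝ × ℝ} (hm : ω.1 ∈ Ioo 0 c.R) : ContinuousAt (al c i) ω :=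
  continuousAt_const.add (((cont_F c i hm).sub continuousAt_const).mul
    (continuous_fst.comp continuous_snd).continuousAt)

lemma cont_be (c : Ctx) (i : ℕ) {ω : ℝ × ℝ × ℝ} (hm : ω.1 ∈ Ioo 0 c.R) : ContinuousAt (be c i) ω :=
  ((cont_F c i hm).sub continuousAt_const).mul (continuous_snd.comp continuous_snd).continuousAt

lemma cont_Psi (c : Ctx) (i : ℕ) (n : Z4) {ω : ℝ × ℝ × ℝ} (hm : ω.1 ∈ Ioo 0 c.R) (ht : ω.2.2 ≠ 0) :
    ContinuousAt (fun ω : ℝ × ℝ × ℝ => Psi (c.F i ω.1) (sl ω) n) ω := by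
  have h1 := cont_F c i hm
  have h2 := cont_sl ht
  exact ((continuousAt_const.add (continuousAt_const.mul h2)).add (continuousAt_const.mul h1)).add
    (continuousAt_const.mul (h2.mul h1))

lemma near_int {φ : ℝ × ℝ × ℝ → ℝ} {ω : ℝ × ℝ × ℝ} (h : ContinuousAt φ ω) {Q : ℝ} {a : ℤ} (he : Q * φ ω = a)
    {δ : ℝ} (hδ : 0 < δ) : ∀ᶠ x in 𝓝 ω, |Q * φ x - a| < δ := by
  have h1 : ContinuousAt (fun x => |Q * φ x - a|) ω := ((continuousAt_const.mul h).sub continuousAt_const).abs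
  refine h1.eventually (gt_mem_nhds ?_)
  show |Q * φ ω - a| < δ
  rw [he, sub_self, abs_zero]
  exact hδ

lemma step (c : Ctx) (e : ℕ → ℕ × ℕ × Z4) (he : ∀ K, (e K).2.2 ≠ 0) (K : ℕ) (s : (ℝ × ℝ × ℝ) × ℝ × ℝ)
    (hs : Stage c e K s) : ∃ s', Stage c e (K + 1) s' ∧ Nxt c e K s s' := by
  obtain ⟨ω1, h1, h2, h3, ⟨Q, hQ, a, b, ha, hb⟩, h5⟩ := hs.next
  have hQ0 : (0 : ℝ) < Q := by exact_mod_cast (show 0 < Q by omega)
  have ev : ∀ᶠ ω in 𝓝 ω1, Near c e K s ω := by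
    have e1 : ∀ᶠ ω in 𝓝 ω1, dist ω s.1 < s.2.1 :=
      (continuous_id.dist continuous_const).continuousAt.eventually (gt_mem_nhds h1)
    have e2 := near_int (cont_al c (e K).1 h2.mem) ha (show 0 < ((Q : ℝ) ^ K)⁻¹ by positivity)
    have e3 := near_int (cont_be c (e K).1 h2.mem) hb (show 0 < ((Q : ℝ) ^ K)⁻¹ by positivity)
    have e4 := (cont_Psi c (e K).2.1 (e K).2.2 h2.mem h2.tau).eventually_ne h5
    filter_upwards [e1, e2, e3, e4] with ω k1 k2 k3 k4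
    exact ⟨k1.le, ⟨Q, hQ, a, b, k2, k3⟩, k4⟩
  obtain ⟨r, hr, H, hH, hall, hnext⟩ := pick c h2 (e (K + 1)).1 (e (K + 1)).2.1 (he (K + 1)) ev ((K + 1 : ℕ) : ℝ)
  exact ⟨(ω1, r, H), ⟨h2, hr, fun ω hω => (hall ω hω).2, hnext⟩, ⟨fun ω hω => (hall ω hω).1, hH, h3⟩⟩

lemma start (c : Ctx) (e : ℕ → ℕ × ℕ × Z4) (he : ∀ K, (e K).2.2 ≠ 0) :
    ∃ s : (ℝ × ℝ × ℝ) × ℝ × ℝ, Stage c e 0 s ∧ ∀ ω, dist ω s.1 ≤ s.2.1 → ω.1 ∈ Ioo 0 c.R ∧ ω.2.2 ≠ 0 := by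
  obtain ⟨x, hx, -, -, hx3⟩ := avoid (a := 0) (b := c.R) (m := 0) (S1 := ∅) (S2 := ∅) le_rfl
    (by simpa using c.hR) (by simp) (by simp) (Z_ct c)
  simp only [mem_ofPred_eq, not_or, not_and, not_exists] at hx3
  have hg : Good c 0 (x, 0, 1) := ⟨hx, (hx3 hx).1, (hx3 hx).2, one_ne_zero, 1, one_pos,
    fun k hk => absurd hk (Nat.not_lt_zero _)⟩
  have ev : ∀ᶠ ω in 𝓝 ((x, 0, 1) : ℝ × ℝ × ℝ), ω.1 ∈ Ioo 0 c.R ∧ ω.2.2 ≠ 0 := by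
    have e1 : ∀ᶠ ω in 𝓝 ((x, 0, 1) : ℝ × ℝ × ℝ), ω.1 ∈ Ioo 0 c.R :=
      continuous_fst.continuousAt.eventually (isOpen_Ioo.mem_nhds hx)
    have e2 : ∀ᶠ ω in 𝓝 ((x, 0, 1) : ℝ × ℝ × ℝ), ω.2.2 ≠ 0 :=
      (continuous_snd.comp continuous_snd).continuousAt.eventually_ne (one_ne_zero (α := ℝ))
    exact e1.and e2
  obtain ⟨r, hr, H, hH, hall, hnext⟩ := pick c hg (e 0).1 (e 0).2.1 (he 0) ev 0
  exact ⟨((x, 0, 1), r, H), ⟨hg, hr, fun ω hω => (hall ω hω).2, hnext⟩, fun ω hω => (hall ω hω).1⟩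

theorem exists_point (c : Ctx) : ∃ ω : ℝ × ℝ × ℝ, ω.1 ∈ Ioo 0 c.R ∧ ω.2.2 ≠ 0 ∧
    (∀ i N : ℕ, ∃ Q : ℕ, 2 ≤ Q ∧ ∃ a b : ℤ, |(Q : ℝ) * al c i ω - a| < ((Q : ℝ) ^ N)⁻¹ ∧
      |(Q : ℝ) * be c i ω - b| < ((Q : ℝ) ^ N)⁻¹) ∧
    (∀ (i : ℕ) (n : Z4), n ≠ 0 → Psi (c.F i ω.1) (sl ω) n ≠ 0) ∧
    ∀ k : ℕ, ∃ b > 0, ∀ n : Z4, n ≠ 0 → b / ‖n‖ ^ 107 ≤ |Psi (c.G k ω.1) (sl ω) n| := by
  have : Nonempty (ℕ × {n : Z4 // n ≠ 0}) := ⟨(0, ⟨(1, 0, 0, 0), by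
    intro h
    have := congrArg Prod.fst h
    simp at this⟩)⟩
  obtain ⟨h, hh⟩ := exists_surjective_nat (ℕ × {n : Z4 // n ≠ 0})
  obtain ⟨e, he⟩ : ∃ e : ℕ → ℕ × ℕ × Z4, ∀ K, e K = ((Nat.unpair K).1, (h (Nat.unpair K).2).1,
      (h (Nat.unpair K).2).2.1) := ⟨_, fun _ => rfl⟩
  have hene : ∀ K, (e K).2.2 ≠ 0 := fun K => by rw [he]; exact (h (Nat.unpair K).2).2.2
  obtain ⟨s0, hs0, hin⟩ := start c e hene
  choose! nxt hn1 hn2 using step c e hene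
  obtain ⟨S, hS0, hSs⟩ : ∃ S : ℕ → (ℝ × ℝ × ℝ) × ℝ × ℝ, S 0 = s0 ∧ ∀ j, S (j + 1) = nxt j (S j) :=
    ⟨fun j => Nat.rec s0 (fun j s => nxt j s) j, rfl, fun _ => rfl⟩
  have hst : ∀ j, Stage c e j (S j) := by
    intro j
    induction j with
    | zero => rw [hS0]; exact hs0
    | succ j ih => rw [hSs]; exact hn1 j _ ih
  have hnx : ∀ j, Nxt c e j (S j) (S (j + 1)) := by
    intro j
    rw [hSs]
    exact hn2 j _ (hst j)
  obtain ⟨ω, hω⟩ := IsCompact.nonempty_iInter_of_sequence_nonempty_isCompact_isClosed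
    (fun j => Metric.closedBall (S j).1 (S j).2.1)
    (fun j ω hω => ((hnx j).near ω hω).1)
    (fun j => ⟨(S j).1, Metric.mem_closedBall_self (hst j).pos.le⟩)
    (isCompact_closedBall _ _) (fun j => Metric.isClosed_closedBall)
  have hωj : ∀ j, dist ω (S j).1 ≤ (S j).2.1 := fun j => mem_iInter.1 hω j
  have hnear : ∀ j, Near c e j (S j) ω := fun j => (hnx j).near ω (hωj (j + 1))
  have h0 := hin ω (by have := hωj 0; rwa [hS0] at this)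
  refine ⟨ω, h0.1, h0.2, ?_, ?_, ?_⟩
  · intro i N
    obtain ⟨-, ⟨Q, hQ, a, b, ha, hb⟩, -⟩ := hnear (Nat.pair i N)
    have hQ1 : (1 : ℝ) ≤ Q := by exact_mod_cast (show 1 ≤ Q by omega)
    have hle : ((Q : ℝ) ^ Nat.pair i N)⁻¹ ≤ ((Q : ℝ) ^ N)⁻¹ := by
      apply inv_anti₀ (by positivity)
      exact pow_le_pow_right₀ hQ1 (Nat.right_le_pair i N)
    rw [he, Nat.unpair_pair] at ha hb
    exact ⟨Q, hQ, a, b, ha.trans_le hle, hb.trans_le hle⟩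
  · intro i n hn
    obtain ⟨m, hm⟩ := hh (i, ⟨n, hn⟩)
    obtain ⟨-, -, h3⟩ := hnear (Nat.pair 0 m)
    rw [he, Nat.unpair_pair] at h3
    simp only [hm] at h3
    exact h3
  · intro k
    have hpos : ∀ n : Z4, n ≠ 0 → 0 < |Psi (c.G k ω.1) (sl ω) n| := by
      intro n hn
      obtain ⟨j, hj⟩ := exists_nat_gt (max ‖n‖ k)
      have hjn : ‖n‖ ≤ (S (j + 1)).2.2 := by
        have h1 := (hnx j).big
        push_cast at h1
        have := (le_max_left ‖n‖ (k : ℝ)).trans_lt hj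
        linarith
      have hjk : k < j + 1 := by
        have : (k : ℝ) < j := (le_max_right ‖n‖ (k : ℝ)).trans_lt hj
        have : k < j := by exact_mod_cast this
        omega
      have h1 := (hst (j + 1)).keep ω (hωj (j + 1)) k hjk n hn hjn
      obtain ⟨b, hb, h2⟩ := (hst (j + 1)).good.bd
      have h3 := h2 k hjk n hn
      have h4 := one_le hn
      have h5 : 0 < b / ‖n‖ ^ 26 := by positivity
      linarith
    obtain ⟨b, hb, hlow⟩ := fin_low (fun n => 2 * ‖n‖ ^ 107 * |Psi (c.G k ω.1) (sl ω) n|)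
      (fun n hn => by
        have h1 := one_le hn
        have h2 := hpos n hn
        positivity) (S k).2.2 (fun n hn hnk => by
        have hex : ∃ j, k ≤ j ∧ ‖n‖ < (S (j + 1)).2.2 := by
          obtain ⟨j, hj⟩ := exists_nat_gt (max ‖n‖ k)
          refine ⟨j, ?_, ?_⟩
          · have : (k : ℝ) < j := (le_max_right ‖n‖ (k : ℝ)).trans_lt hj
            have : k < j := by exact_mod_cast this
            omega
          · have h1 := (hnx j).big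
            push_cast at h1
            have := (le_max_left ‖n‖ (k : ℝ)).trans_lt hj
            linarith
        classical
        obtain ⟨hj1, hj2⟩ := Nat.find_spec hex
        have hj3 : (S (Nat.find hex)).2.2 ≤ ‖n‖ := by
          rcases Nat.eq_or_lt_of_le hj1 with heq | hlt
          · rw [← heq]; exact hnk
          · obtain ⟨j', hj'⟩ : ∃ j', Nat.find hex = j' + 1 := ⟨Nat.find hex - 1, by omega⟩
            have hmin := Nat.find_min hex (show j' < Nat.find hex by omega)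
            rw [hj']
            by_contra hcon
            push Not at hcon
            exact hmin ⟨by omega, hcon⟩
        have h1 := (hnx (Nat.find hex)).low k (by omega) n hj3
        have h2 := (hst (Nat.find hex + 1)).keep ω (hωj _) k (by omega) n hn hj2.le
        have h3 := one_le hn
        have h4 : ‖n‖ / ‖n‖ ^ 108 = 1 / ‖n‖ ^ 107 := by field_simp
        rw [h4] at h1
        have h5 : 1 / ‖n‖ ^ 107 ≤ 2 * |Psi (c.G k ω.1) (sl ω) n| := by linarith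
        rw [div_le_iff₀ (by positivity)] at h5
        linarith)
    refine ⟨b / 2, by positivity, fun n hn => ?_⟩
    have h1 := hlow n hn
    have h2 := one_le hn
    rw [div_le_iff₀ (by positivity)]
    linarith

end Q271.LM
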