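import Pool.Agent.Q271.LM.Crv
import Pool.Agent.Q271.LM.Def

/-!
# The matrices
-/

set_option autoImplicit false

open Set Filter Topology Matrix

namespace Q271.LM

noncomputable def vv (m : ℕ) (κ τ : ℝ) : Fin (m + 2) → ℝ := fun i => if i = 0 then 1 - κ else if i = 1 then -τ else 0
noncomputable def ww (m : ℕ) (κ τ : ℝ) : Fin (m + 2) → ℝ :=
  fun i => if i = 0 then 1 else if i = 1 then -κ / τ else 0

/-- the projection of rank one -/
noncomputable def PP (m : ℕ) (κ τ : ℝ) : Matrix (Fin (m + 2)) (Fin (m + 2)) ℝ :=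
  vecMulVec (vv m κ τ) (ww m κ τ)

lemma dot (m : ℕ) {κ τ : ℝ} (hτ : τ ≠ 0) : ww m κ τ ⬝ᵥ vv m κ τ = 1 := by
  unfold dotProduct vv ww
  rw [Fin.sum_univ_succ, Fin.sum_univ_succ]
  have h1 : ∀ i : Fin m, (i.succ.succ : Fin (m + 2)) ≠ 0 := fun i => Fin.succ_ne_zero _
  have h2 : ∀ i : Fin m, (i.succ.succ : Fin (m + 2)) ≠ 1 := fun i h => by
    have := congrArg Fin.val h
    simp at this
  have h3 : ((0 : Fin (m + 1)).succ : Fin (m + 2)) = 1 := rfl
  have h4 : (1 : Fin (m + 2)) ≠ 0 := by simp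
  simp only [h1, h2, h3, h4, if_true, if_false, mul_zero, Finset.sum_const_zero]
  field_simp
  ring

lemma PP_sq (m : ℕ) {κ τ : ℝ} (hτ : τ ≠ 0) : PP m κ τ * PP m κ τ = PP m κ τ := by
  unfold PP
  rw [vecMulVec_mul_vecMulVec, dot m hτ]
  simp

/-- the matrix with the eigenvalues `y`, `y0` -/
noncomputable def MM (m : ℕ) (κ τ y y0 : ℝ) : Matrix (Fin (m + 2)) (Fin (m + 2)) ℝ := y • 1 - (y - y0) • PP m κ τ

lemma MM_mulVec (m : ℕ) (κ τ y y0 : ℝ) (q : Fin (m + 2) → ℝ) (i : Fin (m + 2)) :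
    (MM m κ τ y y0 *ᵥ q) i = y * q i - (y - y0) * (vv m κ τ i * (ww m κ τ ⬝ᵥ q)) := by
  unfold MM PP
  rw [sub_mulVec, smul_mulVec, smul_mulVec, one_mulVec, vecMulVec_mulVec]
  simp [mul_comm]

/-- the vector of the form -/
def nv {m : ℕ} (q p : Fin (m + 2) → ℤ) : Z4 := (-p 0, p 1, q 0, -q 1)

lemma first_two (m : ℕ) {κ τ y y0 : ℝ} (hτ : τ ≠ 0) (q p : Fin (m + 2) → ℤ) :
    (MM m κ τ y y0 *ᵥ toR q - toR p) 0 - (κ - 1) / τ * (MM m κ τ y y0 *ᵥ toR q - toR p) 1 =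
      Psi y ((κ - 1) / τ) (nv q p) := by
  simp only [Pi.sub_apply, MM_mulVec]
  have e0 : vv m κ τ 0 = 1 - κ := by unfold vv; simp
  have e1 : vv m κ τ 1 = -τ := by unfold vv; simp
  rw [e0, e1]
  unfold Psi nv toR
  push_cast
  field_simp
  ring

lemma other (m : ℕ) (κ τ y y0 s : ℝ) (q p : Fin (m + 2) → ℤ) {i : Fin (m + 2)} (h0 : i ≠ 0) (h1 : i ≠ 1) :
    (MM m κ τ y y0 *ᵥ toR q - toR p) i = Psi y s (-p i, 0, q i, 0) := by
  simp only [Pi.sub_apply, MM_mulVec]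
  have e : vv m κ τ i = 0 := by unfold vv; simp [h0, h1]
  rw [e]
  unfold Psi toR
  push_cast
  ring

/-- every integer vector gives a nonzero form -/
lemma key (m : ℕ) {κ τ y y0 : ℝ} (hτ : τ ≠ 0) (q p : Fin (m + 2) → ℤ) (hqp : q ≠ 0 ∨ p ≠ 0) :
    ∃ n : Z4, n ≠ 0 ∧ ‖n‖ ≤ max ‖toR q‖ ‖toR p‖ ∧
      |Psi y ((κ - 1) / τ) n| ≤ (1 + |(κ - 1) / τ|) * ‖MM m κ τ y y0 *ᵥ toR q - toR p‖ := by
  have hq : ∀ i, |(q i : ℝ)| ≤ max ‖toR q‖ ‖toR p‖ := fun i =>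
    (norm_le_pi_norm (toR q) i).trans (le_max_left _ _)
  have hp : ∀ i, |(p i : ℝ)| ≤ max ‖toR q‖ ‖toR p‖ := fun i =>
    (norm_le_pi_norm (toR p) i).trans (le_max_right _ _)
  have hc := fun i => norm_le_pi_norm (MM m κ τ y y0 *ᵥ toR q - toR p) i
  have hs := abs_nonneg ((κ - 1) / τ)
  have hn0 := norm_nonneg (MM m κ τ y y0 *ᵥ toR q - toR p)
  by_cases hn : nv q p = 0
  · have hex : ∃ i : Fin (m + 2), i ≠ 0 ∧ i ≠ 1 ∧ (q i ≠ 0 ∨ p i ≠ 0) := by
      by_contra hcon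
      push Not at hcon
      simp only [nv, Prod.ext_iff, Prod.fst_zero, Prod.snd_zero, neg_eq_zero] at hn
      obtain ⟨n1, n2, n3, n4⟩ := hn
      have hz : ∀ i, q i = 0 ∧ p i = 0 := by
        intro i
        by_cases h0 : i = 0
        · rw [h0]; exact ⟨n3, n1⟩
        by_cases h1 : i = 1
        · rw [h1]; exact ⟨n4, n2⟩
        exact hcon i h0 h1
      rcases hqp with h | h
      · exact h (funext fun i => (hz i).1)
      · exact h (funext fun i => (hz i).2)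
    obtain ⟨i, h0, h1, h2⟩ := hex
    refine ⟨(-p i, 0, q i, 0), ?_, ?_, ?_⟩
    · intro h
      simp only [Prod.ext_iff, Prod.fst_zero, Prod.snd_zero, neg_eq_zero] at h
      rcases h2 with h2 | h2
      · exact h2 h.2.2.1
      · exact h2 h.1
    · rw [← norm_cv]
      refine norm4 ?_ ?_ ?_ ?_
      · simpa [cv] using hp i
      · simp [cv]
      · simpa [cv] using hq i
      · simp [cv]
    · rw [← other m κ τ y y0 ((κ - 1) / τ) q p h0 h1]
      have := hc i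
      rw [Real.norm_eq_abs] at this
      nlinarith
  · refine ⟨nv q p, hn, ?_, ?_⟩
    · rw [← norm_cv]
      refine norm4 ?_ ?_ ?_ ?_
      · simpa [cv, nv] using hp 0
      · simpa [cv, nv] using hp 1
      · simpa [cv, nv] using hq 0
      · simpa [cv, nv] using hq 1
    · rw [← first_two m (y0 := y0) hτ q p]
      have a0 := hc 0
      have a1 := hc 1
      rw [Real.norm_eq_abs] at a0 a1
      refine (abs_sub _ _).trans ?_
      rw [abs_mul, add_mul, one_mul]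
      gcongr

lemma isL (m : ℕ) {κ τ y y0 : ℝ} (hτ : τ ≠ 0) (h1 : ∀ n : Z4, n ≠ 0 → Psi y ((κ - 1) / τ) n ≠ 0)
    (h2 : ∀ N : ℕ, ∃ Q : ℕ, 2 ≤ Q ∧ ∃ a b : ℤ, |(Q : ℝ) * (y0 + (y - y0) * κ) - a| < ((Q : ℝ) ^ N)⁻¹ ∧
      |(Q : ℝ) * ((y - y0) * τ) - b| < ((Q : ℝ) ^ N)⁻¹) : IsLiouville (MM m κ τ y y0) := by
  constructor
  · intro q p hqp he
    obtain ⟨n, hn, -, hle⟩ := key m (y := y) (y0 := y0) (κ := κ) hτ q p hqp
    rw [he, sub_self, norm_zero, mul_zero] at hle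
    exact h1 n hn (abs_nonpos_iff.1 hle)
  · intro N
    obtain ⟨Q, hQ, a, b, ha, hb⟩ := h2 N
    obtain ⟨q, hq⟩ : ∃ q : Fin (m + 2) → ℤ, ∀ i, q i = if i = 0 then (Q : ℤ) else 0 := ⟨_, fun _ => rfl⟩
    obtain ⟨p, hp⟩ : ∃ p : Fin (m + 2) → ℤ, ∀ i, p i = if i = 0 then a else if i = 1 then b else 0 :=
      ⟨_, fun _ => rfl⟩
    have hQpos : (0 : ℝ) < Q := by exact_mod_cast (show 0 < Q by omega)
    have hqn : ‖toR q‖ = Q := by
      apply le_antisymm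
      · rw [pi_norm_le_iff_of_nonneg hQpos.le]
        intro i
        unfold toR
        rw [hq]
        split_ifs <;> simp
      · have h3 := norm_le_pi_norm (toR q) 0
        have e : toR q 0 = Q := by
          unfold toR
          rw [hq]
          simp
        rw [e, Real.norm_of_nonneg hQpos.le] at h3
        exact h3
    have hdot : ww m κ τ ⬝ᵥ toR q = Q := by
      unfold dotProduct
      rw [Finset.sum_eq_single 0]
      · unfold ww toR
        rw [hq]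
        simp
      · intro i _ hi
        unfold toR
        rw [hq, if_neg hi]
        simp
      · intro h
        exact absurd (Finset.mem_univ _) h
    refine ⟨q, p, ?_, ?_⟩
    · rw [hqn]
      exact_mod_cast hQ
    · rw [hqn, pi_norm_lt_iff (by positivity)]
      intro i
      rw [Pi.sub_apply, MM_mulVec, hdot, Real.norm_eq_abs]
      unfold toR vv
      rw [hq, hp]
      by_cases h0 : i = 0
      · simp only [h0, if_true]
        refine lt_of_eq_of_lt (congrArg _ ?_) ha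
        push_cast
        ring
      by_cases h1 : i = 1
      · simp only [h1, if_true, if_neg (show (1 : Fin (m + 2)) ≠ 0 by simp)]
        refine lt_of_eq_of_lt (congrArg _ ?_) hb
        push_cast
        ring
      · simp only [h0, h1, if_false]
        simp only [Int.cast_zero, mul_zero, zero_mul, sub_zero, abs_zero]
        positivity

lemma nonL (m : ℕ) {κ τ y y0 : ℝ} (hτ : τ ≠ 0) {b : ℝ} (hb : 0 < b)
    (h : ∀ n : Z4, n ≠ 0 → b / ‖n‖ ^ 107 ≤ |Psi y ((κ - 1) / τ) n|) : ¬ IsLiouville (MM m κ τ y y0) := by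
  rintro ⟨-, hL⟩
  obtain ⟨C, hC0, hC⟩ : ∃ C : ℝ, 0 ≤ C ∧ ∀ v : Fin (m + 2) → ℝ, ‖MM m κ τ y y0 *ᵥ v‖ ≤ C * ‖v‖ := by
    refine ⟨‖(Matrix.mulVecLin (MM m κ τ y y0)).toContinuousLinearMap‖, norm_nonneg _, fun v => ?_⟩
    exact (Matrix.mulVecLin (MM m κ τ y y0)).toContinuousLinearMap.le_opNorm v
  obtain ⟨S, hS⟩ : ∃ S, S = 1 + |(κ - 1) / τ| := ⟨_, rfl⟩
  have hS1 : 1 ≤ S := by rw [hS]; linarith [abs_nonneg ((κ - 1) / τ)]
  obtain ⟨b', hb'⟩ : ∃ b', b' = b / (S * (C + 1) ^ 107) := ⟨_, rfl⟩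
  have hb'0 : 0 < b' := by rw [hb']; positivity
  obtain ⟨t, ht⟩ := pow_unbounded_of_one_lt (1 / b') (show (1 : ℝ) < 2 by norm_num)
  obtain ⟨q, p, hq, hqp⟩ := hL (107 + t)
  obtain ⟨X, hX⟩ : ∃ X, X = ‖toR q‖ := ⟨_, rfl⟩
  rw [← hX] at hq hqp
  have hX0 : 0 < X := by linarith
  have hq0 : q ≠ 0 := by
    rintro rfl
    have : toR (0 : Fin (m + 2) → ℤ) = 0 := by funext i; simp [toR]
    rw [this, norm_zero] at hX
    linarith
  obtain ⟨n, hn, hn2, hn3⟩ := key m (y := y) (y0 := y0) (κ := κ) hτ q p (Or.inl hq0)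
  rw [← hS] at hn3
  rw [← hX] at hn2
  have hlt1 : ‖MM m κ τ y y0 *ᵥ toR q - toR p‖ < 1 := by
    refine hqp.trans_le (inv_le_one_of_one_le₀ (one_le_pow₀ (by linarith)))
  have hp : ‖toR p‖ ≤ (C + 1) * X := by
    have e : toR p = MM m κ τ y y0 *ᵥ toR q - (MM m κ τ y y0 *ᵥ toR q - toR p) := by abel
    have h1 : ‖toR p‖ ≤ ‖MM m κ τ y y0 *ᵥ toR q‖ + ‖MM m κ τ y y0 *ᵥ toR q - toR p‖ := by
      conv_lhs => rw [e]
      exact norm_sub_le _ _
    have h2 := hC (toR q)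
    rw [← hX] at h2
    linarith
  have hn4 : ‖n‖ ≤ (C + 1) * X := hn2.trans (max_le (by nlinarith) hp)
  have h1n := one_le hn
  have h5 : b' / X ^ 107 ≤ ‖MM m κ τ y y0 *ᵥ toR q - toR p‖ := by
    have e1 : b / ((C + 1) * X) ^ 107 ≤ b / ‖n‖ ^ 107 := by gcongr
    have e2 := e1.trans ((h n hn).trans hn3)
    have e3 : b' / X ^ 107 = b / ((C + 1) * X) ^ 107 / S := by
      rw [hb', mul_pow]
      field_simp
    rw [e3, div_le_iff₀ (by linarith)]
    linarith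
  have h6 : b' / X ^ 107 < (X ^ (107 + t))⁻¹ := h5.trans_lt hqp
  rw [pow_add, div_eq_mul_inv, mul_inv, mul_comm b'] at h6
  have h7 : b' < (X ^ t)⁻¹ := lt_of_mul_lt_mul_left h6 (by positivity)
  have h8 : (2 : ℝ) ^ t ≤ X ^ t := pow_le_pow_left₀ (by norm_num) hq t
  have h9 : (X ^ t)⁻¹ ≤ ((2 : ℝ) ^ t)⁻¹ := inv_anti₀ (by positivity) h8
  have h10 : ((2 : ℝ) ^ t)⁻¹ < b' := by
    rw [inv_lt_comm₀ (by positivity) hb'0]
    rwa [one_div] at ht
  linarith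

end Q271.LM
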