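import Pool.Agent.Q271.LM.Wr
import Pool.Agent.Q271.LM.Def

/-!
# The hypotheses give linear independence
-/

set_option autoImplicit false

open Set Filter Topology

namespace Q271.LM

lemma indep_of {I : Set ℝ} (hI : IsPreconnected I) (h0 : (0 : ℝ) ∈ I) {h g : ℝ → ℝ}
    (hh : AnalyticOnNhd ℝ h I) (hg : AnalyticOnNhd ℝ g I) (hc : ∀ c, ¬ ∀ x ∈ I, g x = c)
    (hM : ∀ a b c d : ℝ, (c, d) ≠ (0, 0) → ¬ Coincide I h g a b c d) : Indep h g I := by
  intro m hm
  by_cases h1 : ∀ x ∈ I, m.2.2.2 * g x + m.2.1 ≠ 0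
  · exfalso
    refine hM (-m.2.2.1) (-m.1) m.2.2.2 m.2.1 ?_ fun x hx => ⟨h1 x hx, ?_⟩
    · intro he
      rw [Prod.mk.injEq] at he
      exact h1 0 h0 (by rw [he.1, he.2]; ring)
    · rw [eq_div_iff (h1 x hx)]
      have := hm x hx
      unfold Comb at this
      linarith
  push Not at h1
  obtain ⟨x0, hx0, h1⟩ := h1
  have h2 : m.1 + m.2.2.1 * g x0 = 0 := by
    have := hm x0 hx0
    unfold Comb at this
    have e : m.2.1 * h x0 + m.2.2.2 * (h x0 * g x0) = 0 := by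
      have : m.2.1 * h x0 + m.2.2.2 * (h x0 * g x0) = h x0 * (m.2.2.2 * g x0 + m.2.1) := by ring
      rw [this, h1, mul_zero]
    linarith
  by_cases h3 : m.2.2.2 = 0
  · rw [h3, zero_mul, zero_add] at h1
    have h4 : ∀ x ∈ I, m.1 + m.2.2.1 * g x = 0 := by
      intro x hx
      have := hm x hx
      unfold Comb at this
      rw [h1, h3] at this
      linarith
    have h5 : m.2.2.1 = 0 := by
      by_contra h5
      refine hc (-m.1 / m.2.2.1) fun x hx => ?_
      rw [eq_div_iff h5]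
      have := h4 x hx
      linarith
    rw [h5, zero_mul, add_zero] at h2
    obtain ⟨m1, m2, m3, m4⟩ := m
    simp only at h1 h2 h3 h5
    rw [h1, h2, h3, h5]
    rfl
  · exfalso
    have h4 : ∀ x ∈ I, (g x - g x0) * (m.2.2.2 * h x + m.2.2.1) = 0 := by
      intro x hx
      have := hm x hx
      unfold Comb at this
      have e : (g x - g x0) * (m.2.2.2 * h x + m.2.2.1) =
        (m.1 + m.2.1 * h x + m.2.2.1 * g x + m.2.2.2 * (h x * g x)) - h x * (m.2.2.2 * g x0 + m.2.1) -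
          (m.1 + m.2.2.1 * g x0) := by ring
      rw [e, this, h1, h2]
      ring
    rcases AnalyticOnNhd.eq_zero_or_eq_zero_of_mul_eq_zero (hg.sub analyticOnNhd_const)
      ((analyticOnNhd_const.mul hh).add analyticOnNhd_const) h4 hI with h5 | h5
    · exact hc (g x0) fun x hx => sub_eq_zero.1 (h5 x hx)
    · refine hM 0 (-m.2.2.1 / m.2.2.2) 0 1 (by simp) fun x hx => ⟨by simp, ?_⟩
      have e : m.2.2.2 * h x + m.2.2.1 = 0 := h5 x hx
      have : h x = -m.2.2.1 / m.2.2.2 := by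
        rw [eq_div_iff h3]
        linarith
      rw [this]
      simp

lemma not_const {I : Set ℝ} {g : ℝ → ℝ} (hM : ∀ a b c d : ℝ, (c, d) ≠ (0, 0) → ¬ Coincide I g id a b c d) :
    ∀ c, ¬ ∀ x ∈ I, g x = c := by
  intro c hc
  refine hM 0 c 0 1 (by simp) fun x hx => ⟨by simp, ?_⟩
  rw [hc x hx]
  simp

lemma id_not_const {I : Set ℝ} (hI : IsOpen I) (h0 : (0 : ℝ) ∈ I) : ∀ c, ¬ ∀ x ∈ I, id x = c := by
  intro c hc
  obtain ⟨ε, hε, hb⟩ := Metric.isOpen_iff.1 hI 0 h0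
  have h1 : (ε / 2 : ℝ) ∈ I := hb (by
    rw [Metric.mem_ball, Real.dist_eq, sub_zero, abs_of_pos (by positivity)]
    linarith)
  have e1 : ε / 2 = c := hc _ h1
  have e2 : (0 : ℝ) = c := hc _ h0
  linarith

lemma indep_symm {h g : ℝ → ℝ} {I : Set ℝ} (hi : Indep h g I) : Indep g h I := by
  intro m hm
  have := hi (m.1, m.2.2.1, m.2.1, m.2.2.2) fun x hx => by
    have := hm x hx
    unfold Comb at this ⊢
    linarith
  simp only [Prod.ext_iff, Prod.fst_zero, Prod.snd_zero] at this ⊢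
  exact ⟨this.1, this.2.2.1, this.2.1, this.2.2.2⟩

lemma indep_sub {h g : ℝ → ℝ} {I : Set ℝ} (hI : IsPreconnected I) (hh : AnalyticOnNhd ℝ h I)
    (hg : AnalyticOnNhd ℝ g I) (hi : Indep h g I) {a b : ℝ} (hab : a < b) (hs : Ioo a b ⊆ I) :
    Indep h g (Ioo a b) := fun m hm => hi m (ident hI (comb_an hh hg m) hab hs hm)

end Q271.LM
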