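import Pool.Agent.Q271.LM.Def

/-!
# Taylor series
-/

set_option autoImplicit false

open Set Filter Topology

namespace Q271.LM

/-- the Taylor series as a formal series -/
noncomputable def fs (h : ℝ → ℝ) : FormalMultilinearSeries ℝ ℝ ℝ := FormalMultilinearSeries.ofScalars ℝ (coeff h)

lemma fs_at {h : ℝ → ℝ} (ha : AnalyticAt ℝ h 0) : HasFPowerSeriesAt h (fs h) 0 := ha.hasFPowerSeriesAt

lemma norm_fs (h : ℝ → ℝ) (n : ℕ) : ‖fs h n‖ = |coeff h n| := by
  unfold fs
  rw [FormalMultilinearSeries.ofScalars_norm, Real.norm_eq_abs]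

lemma rad {h : ℝ → ℝ} {r : ℝ} (hr : 0 ≤ r) (hs : Summable fun j => |coeff h j| * r ^ j) :
    ENNReal.ofReal r ≤ (fs h).radius := by
  lift r to NNReal using hr
  rw [ENNReal.ofReal_coe_nnreal]
  apply FormalMultilinearSeries.le_radius_of_summable_norm
  simpa only [norm_fs] using hs

/-- an analytic function has a Taylor series with a positive radius -/
lemma exists_rad {h : ℝ → ℝ} (ha : AnalyticAt ℝ h 0) : ∃ r > 0, ∀ s, 0 ≤ s → s ≤ r → Summable fun j => |coeff h j| * s ^ j := by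
  obtain ⟨R, hR⟩ := fs_at ha
  obtain ⟨r, hr0, hr⟩ := ENNReal.lt_iff_exists_nnreal_btwn.1 (hR.r_pos.trans_le hR.r_le)
  have hr0' : 0 < (r : ℝ) := by exact_mod_cast hr0
  refine ⟨r, hr0', fun s hs0 hs => ?_⟩
  have h1 := FormalMultilinearSeries.summable_norm_mul_pow _ hr
  simp only [norm_fs] at h1
  refine Summable.of_nonneg_of_le (fun j => by positivity) (fun j => ?_) h1
  gcongr

lemma taylor {h : ℝ → ℝ} {I : Set ℝ} (hI : I.OrdConnected) (h0 : (0 : ℝ) ∈ I) (hh : AnalyticOnNhd ℝ h I)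
    {r : ℝ} (hr : 0 < r) (hs : Summable fun j => |coeff h j| * r ^ j) {x : ℝ} (hx : x ∈ I) (hxr : |x| < r) :
    HasSum (fun j => coeff h j * x ^ j) (h x) := by
  have hrad := rad hr.le hs
  have hrpos : 0 < (fs h).radius := (ENNReal.ofReal_pos.2 hr).trans_le hrad
  have hball := (fs h).hasFPowerSeriesOnBall hrpos
  have hmem : ∀ y : ℝ, |y| < r → y ∈ Metric.eball (0 : ℝ) (fs h).radius := by
    intro y hy
    rw [Metric.mem_eball, edist_dist, Real.dist_eq, sub_zero]
    exact ((ENNReal.ofReal_lt_ofReal_iff hr).2 hy).trans_le hrad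
  have hpre : IsPreconnected (I ∩ Ioo (-r) r) := (hI.inter ordConnected_Ioo).isPreconnected
  have ha1 : AnalyticOnNhd ℝ (fs h).sum (I ∩ Ioo (-r) r) := fun y hy =>
    hball.analyticAt_of_mem (hmem y (abs_lt.2 hy.2))
  have hev : ∀ᶠ y in 𝓝 (0 : ℝ), h y = (fs h).sum y := by
    have h1 := (fs_at (hh 0 h0)).eventually_hasSum
    filter_upwards [h1] with y hy
    rw [zero_add] at hy
    exact hy.tsum_eq.symm
  have heq := AnalyticOnNhd.eqOn_of_preconnected_of_eventuallyEq (hh.mono inter_subset_left) ha1 hpre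
    (show (0 : ℝ) ∈ I ∩ Ioo (-r) r from ⟨h0, by constructor <;> linarith⟩) hev
  have hxm : x ∈ I ∩ Ioo (-r) r := ⟨hx, abs_lt.1 hxr⟩
  have h2 := hball.hasSum (hmem x hxr)
  rw [zero_add, ← heq hxm] at h2
  have e : (fun n => (fs h n) fun _ => x) = fun j => coeff h j * x ^ j := by
    funext j
    unfold fs
    rw [FormalMultilinearSeries.ofScalars_apply_eq, smul_eq_mul]
  rw [e] at h2
  exact h2

end Q271.LM
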