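import Pool.Agent.Q271.LM.Iter
import Pool.Agent.Q271.LM.Rel
import Pool.Agent.Q271.LM.Tay
import Pool.Agent.Q271.LM.Mat

/-!
# The positive theorem
-/

set_option autoImplicit false

open Set Filter Topology Matrix

namespace Q271.LM

lemma MM_eq (m : ℕ) (κ τ y y0 : ℝ) : MM m κ τ y y0 = y0 • PP m κ τ + y • (1 - PP m κ τ) := by
  unfold MM
  rw [smul_sub, sub_smul]
  abel

lemma compl_sq (m : ℕ) {κ τ : ℝ} (hτ : τ ≠ 0) : (1 - PP m κ τ) * (1 - PP m κ τ) = 1 - PP m κ τ := by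
  rw [sub_mul, mul_sub, mul_sub, PP_sq m hτ]
  simp

lemma A_eq (m : ℕ) (κ τ x : ℝ) : MM m κ τ x 0 = x • (1 - PP m κ τ) := by
  rw [MM_eq, zero_smul, zero_add]

lemma A_sq (m : ℕ) {κ τ : ℝ} (hτ : τ ≠ 0) (x : ℝ) : MM m κ τ x 0 * MM m κ τ x 0 = x • MM m κ τ x 0 := by
  rw [A_eq, smul_mul_smul_comm, compl_sq m hτ, smul_smul]

lemma A_pow (m : ℕ) {κ τ : ℝ} (hτ : τ ≠ 0) (x : ℝ) (j : ℕ) :
    MM m κ τ x 0 ^ (j + 1) = x ^ (j + 1) • (1 - PP m κ τ) := by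
  induction j with
  | zero => rw [zero_add, pow_one, pow_one, A_eq]
  | succ j ih =>
    rw [pow_succ, ih, A_eq, smul_mul_smul_comm, compl_sq m hτ, ← pow_succ]

lemma coeff_zero (h : ℝ → ℝ) : coeff h 0 = h 0 := by
  unfold coeff
  simp

lemma ext_MM (m : ℕ) {κ τ : ℝ} (hτ : τ ≠ 0) {h : ℝ → ℝ} {x : ℝ}
    (hs : HasSum (fun j => coeff h j * x ^ j) (h x)) : Ext h (MM m κ τ x 0) (MM m κ τ (h x) (h 0)) := by
  have key : ∀ N : ℕ, ∑ j ∈ Finset.range (N + 1), coeff h j • MM m κ τ x 0 ^ j =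
      h 0 • PP m κ τ + (∑ j ∈ Finset.range (N + 1), coeff h j * x ^ j) • (1 - PP m κ τ) := by
    intro N
    induction N with
    | zero =>
      rw [zero_add, Finset.sum_range_one, Finset.sum_range_one, pow_zero, pow_zero, coeff_zero, mul_one, ← smul_add]
      congr 1
      abel
    | succ N ih =>
      rw [Finset.sum_range_succ, ih, Finset.sum_range_succ _ (N + 1), A_pow m hτ, add_smul, smul_smul, add_assoc]
  unfold Ext
  rw [← tendsto_add_atTop_iff_nat 1]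
  simp only [key]
  rw [MM_eq]
  refine tendsto_const_nhds.add (Tendsto.smul_const ?_ _)
  exact (tendsto_add_atTop_iff_nat 1).2 hs.tendsto_sum_nat

/-- the value at `A` of the polynomials which agree with `h` at `0` and at `x` -/
noncomputable def fc {n : ℕ} (h : ℝ → ℝ) (x : ℝ) (A : Matrix (Fin n) (Fin n) ℝ) : Matrix (Fin n) (Fin n) ℝ :=
  h 0 • 1 + ((h x - h 0) / x) • A

lemma fc_MM (m : ℕ) (κ τ : ℝ) (h : ℝ → ℝ) {x : ℝ} (hx : x ≠ 0) :
    fc h x (MM m κ τ x 0) = MM m κ τ (h x) (h 0) := by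
  unfold fc
  rw [A_eq, smul_smul, div_mul_cancel₀ _ hx, MM_eq, sub_smul, smul_sub, smul_sub]
  abel

theorem pos (m : ℕ) {I : Set ℝ} (hIo : IsOpen I) (hIc : I.OrdConnected) (h0 : (0 : ℝ) ∈ I) {f g : ℕ → ℝ → ℝ}
    (hf : ∀ k, AnalyticOnNhd ℝ (f k) I) (hg : ∀ k, AnalyticOnNhd ℝ (g k) I)
    (hi : ∀ k : ℕ, ∀ a b c d : ℝ, (c, d) ≠ (0, 0) → ¬ Coincide I (g k) id a b c d)
    (hii : ∀ k l : ℕ, ∀ a b c d : ℝ, (c, d) ≠ (0, 0) → ¬ Coincide I (f k) (g l) a b c d)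
    {ε : ℝ} (hε : 0 < ε) :
    ∃ x ∈ I, 0 < x ∧ x < ε ∧ ∃ A : Matrix (Fin (m + 2)) (Fin (m + 2)) ℝ, A * A = x • A ∧ IsLiouville A ∧
      (∀ k, IsLiouville (fc (f k) x A) ∧ ¬ IsLiouville (fc (g k) x A)) ∧
      ∀ h : ℝ → ℝ, AnalyticOnNhd ℝ h I → ∀ r : ℝ, x < r → Summable (fun j => |coeff h j| * r ^ j) →
        Ext h A (fc h x A) := by
  obtain ⟨ε0, hε0, hball⟩ := Metric.isOpen_iff.1 hIo 0 h0
  have hpre := hIc.isPreconnected
  have hR : 0 < min ε ε0 := lt_min hε hε0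
  have hsub : Ioo 0 (min ε ε0) ⊆ I := by
    intro x hx
    refine hball ?_
    rw [Metric.mem_ball, Real.dist_eq, sub_zero, abs_of_pos hx.1]
    exact hx.2.trans_le (min_le_right _ _)
  obtain ⟨F, hF0, hFs⟩ : ∃ F : ℕ → ℝ → ℝ, F 0 = id ∧ ∀ i, F (i + 1) = f i :=
    ⟨fun i => Nat.casesOn i id f, rfl, fun _ => rfl⟩
  have hFan : ∀ i, AnalyticOnNhd ℝ (F i) I := by
    intro i
    cases i with
    | zero => rw [hF0]; exact analyticOnNhd_id
    | succ i => rw [hFs]; exact hf i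
  have hind : ∀ i k, Indep (F i) (g k) I := by
    intro i k
    cases i with
    | zero =>
      rw [hF0]
      exact indep_symm (indep_of hpre h0 (hg k) analyticOnNhd_id (id_not_const hIo h0) (hi k))
    | succ i =>
      rw [hFs]
      exact indep_of hpre h0 (hf i) (hg k) (not_const (hi k)) (hii i k)
  let c : Ctx :=
    { R := min ε ε0
      F := F
      G := g
      u := fun i => F i 0
      hR := hR
      hF := fun i => (hFan i).mono hsub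
      hG := fun k => (hg k).mono hsub
      ind := fun i k => indep_sub hpre (hFan i) (hg k) (hind i k) hR hsub }
  obtain ⟨⟨x, κ, τ⟩, hx, hτ, h1, h2, h3⟩ := exists_point c
  have hx' : x ∈ Ioo 0 (min ε ε0) := hx
  have hτ' : τ ≠ 0 := hτ
  have hL : ∀ i, IsLiouville (MM m κ τ (F i x) (F i 0)) := by
    intro i
    refine isL m hτ' (fun n hn => h2 i n hn) fun N => ?_
    obtain ⟨Q, hQ, a, b, ha, hb⟩ := h1 i N
    exact ⟨Q, hQ, a, b, ha, hb⟩
  refine ⟨x, hsub hx', hx'.1, hx'.2.trans_le (min_le_left _ _), MM m κ τ x 0, A_sq m hτ' x, ?_, ?_, ?_⟩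
  · have := hL 0
    rw [hF0] at this
    exact this
  · intro k
    rw [fc_MM m κ τ _ hx'.1.ne', fc_MM m κ τ _ hx'.1.ne']
    refine ⟨?_, ?_⟩
    · have := hL (k + 1)
      rw [hFs] at this
      exact this
    · obtain ⟨b, hb, h⟩ := h3 k
      exact nonL m hτ' hb h
  · intro h hh r hr hs
    rw [fc_MM m κ τ _ hx'.1.ne']
    exact ext_MM m hτ' (taylor hIc h0 hh (hx'.1.trans hr) hs (hsub hx') (by rwa [abs_of_pos hx'.1]))

end Q271.LM
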