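import Pool.Agent.Q271.LM.Tay

/-!
# Shrinking radii of convergence
-/

set_option autoImplicit false

open Set Filter Topology Matrix

namespace Q271.LM

lemma map_pow' {n : ℕ} (A : Matrix (Fin n) (Fin n) ℝ) (j : ℕ) :
    (A ^ j).map Complex.ofReal = (A.map Complex.ofReal) ^ j :=
  Matrix.map_pow A Complex.ofRealHom j

lemma eig_pow {n : ℕ} {B : Matrix (Fin n) (Fin n) ℂ} {v : Fin n → ℂ} {l : ℂ} (h : B *ᵥ v = l • v) (j : ℕ) :
    B ^ j *ᵥ v = l ^ j • v := by
  induction j with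
  | zero => simp
  | succ j ih => rw [pow_succ', ← mulVec_mulVec, ih, mulVec_smul, h, smul_smul, pow_succ]

/-- a real matrix whose powers decrease faster than any geometric sequence is nilpotent -/
lemma nilp {n : ℕ} (A : Matrix (Fin n) (Fin n) ℝ) (s : ℕ)
    (h : ∀ k : ℕ, Tendsto (fun t : ℕ => (-((k : ℝ) + 1)) ^ t • A ^ (s + 2 * t)) atTop (𝓝 0)) : A ^ n = 0 := by
  obtain ⟨B, hB⟩ : ∃ B : Matrix (Fin n) (Fin n) ℂ, B = A.map Complex.ofReal := ⟨_, rfl⟩
  have hroot : ∀ l ∈ B.charpoly.roots, l = 0 := by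
    intro l hl
    by_contra hl0
    have h1 := Polynomial.isRoot_of_mem_roots hl
    rw [Polynomial.IsRoot.def, eval_charpoly] at h1
    obtain ⟨v, hv, hv2⟩ := exists_mulVec_eq_zero_iff.2 h1
    have hv3 : B *ᵥ v = l • v := by
      rw [sub_mulVec, sub_eq_zero] at hv2
      rw [← hv2]
      ext i
      simp [Matrix.scalar_apply, mulVec_diagonal]
    obtain ⟨i, hi⟩ : ∃ i, v i ≠ 0 := by
      by_contra hcon
      push Not at hcon
      exact hv (funext hcon)
    obtain ⟨k, hk⟩ := exists_nat_gt (1 / ‖l‖ ^ 2)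
    have hl1 : 0 < ‖l‖ := norm_pos_iff.2 hl0
    have hkl : 1 ≤ ((k : ℝ) + 1) * ‖l‖ ^ 2 := by
      rw [div_lt_iff₀ (by positivity)] at hk
      nlinarith [sq_nonneg ‖l‖]
    have hcont : Continuous fun X : Matrix (Fin n) (Fin n) ℝ => ((X.map Complex.ofReal) *ᵥ v) i := by
      unfold mulVec dotProduct
      refine continuous_finsetSum _ fun j _ => Continuous.mul ?_ continuous_const
      exact Complex.continuous_ofReal.comp (continuous_apply_apply i j)
    have h2 := (hcont.tendsto 0).comp (h k)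
    have h3 : ((0 : Matrix (Fin n) (Fin n) ℝ).map Complex.ofReal *ᵥ v) i = 0 := by
      have : (0 : Matrix (Fin n) (Fin n) ℝ).map Complex.ofReal = 0 := by ext; simp
      rw [this, zero_mulVec]
      rfl
    rw [h3] at h2
    have h4 : ∀ t : ℕ, ‖((fun X : Matrix (Fin n) (Fin n) ℝ => ((X.map Complex.ofReal) *ᵥ v) i) ∘
        fun t : ℕ => (-((k : ℝ) + 1)) ^ t • A ^ (s + 2 * t)) t‖ =
        ‖l‖ ^ s * ‖v i‖ * (((k : ℝ) + 1) * ‖l‖ ^ 2) ^ t := by
      intro t
      have e1 : ((-((k : ℝ) + 1)) ^ t • A ^ (s + 2 * t)).map Complex.ofReal =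
          (((-((k : ℝ) + 1)) ^ t : ℝ) : ℂ) • B ^ (s + 2 * t) := by
        rw [hB, ← map_pow']
        ext a b
        simp
      simp only [Function.comp_apply]
      rw [e1, smul_mulVec, eig_pow hv3]
      simp only [Pi.smul_apply, smul_eq_mul, norm_mul, norm_pow, Complex.norm_real, norm_neg, Complex.norm_real]
      rw [Real.norm_of_nonneg (show 0 ≤ (k : ℝ) + 1 by positivity), mul_pow, ← pow_mul, pow_add]
      ring
    have h5 : ∀ t : ℕ, ‖l‖ ^ s * ‖v i‖ ≤ ‖((fun X : Matrix (Fin n) (Fin n) ℝ => ((X.map Complex.ofReal) *ᵥ v) i) ∘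
        fun t : ℕ => (-((k : ℝ) + 1)) ^ t • A ^ (s + 2 * t)) t‖ := by
      intro t
      rw [h4]
      have : 1 ≤ (((k : ℝ) + 1) * ‖l‖ ^ 2) ^ t := one_le_pow₀ hkl
      exact le_mul_of_one_le_right (by positivity) this
    have h6 := ge_of_tendsto' h2.norm h5
    rw [norm_zero] at h6
    have h7 : 0 < ‖l‖ ^ s * ‖v i‖ := mul_pos (pow_pos hl1 _) (norm_pos_iff.2 hi)
    linarith
  have hsp := IsAlgClosed.splits B.charpoly
  have h1 := hsp.eq_prod_roots_of_monic (charpoly_monic B)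
  have h2 : B.charpoly.roots = Multiset.replicate B.charpoly.roots.card 0 :=
    Multiset.eq_replicate.2 ⟨rfl, hroot⟩
  rw [h2] at h1
  simp only [Multiset.map_replicate, Multiset.prod_replicate, map_zero, sub_zero] at h1
  have h3 : B.charpoly.roots.card = n := by
    have := congrArg Polynomial.natDegree h1
    rw [charpoly_natDegree_eq_dim, Polynomial.natDegree_X_pow, Fintype.card_fin] at this
    exact this.symm
  rw [h3] at h1
  have h4 := aeval_self_charpoly B
  rw [h1] at h4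
  simp only [map_pow, Polynomial.aeval_X] at h4
  rw [hB, ← map_pow'] at h4
  ext a b
  have := congrFun (congrFun h4 a) b
  simpa using this

/-- the functions with shrinking radii of convergence -/
noncomputable def fk (n k : ℕ) (z : ℝ) : ℝ := z ^ (2 * n + 1) / (1 + ((k : ℝ) + 1) * z ^ 2)

lemma fk_an (n k : ℕ) : AnalyticOnNhd ℝ (fk n k) univ := by
  intro z _
  have h1 : AnalyticAt ℝ (fun z : ℝ => z ^ (2 * n + 1)) z := analyticAt_id.pow _
  have h2 : AnalyticAt ℝ (fun z : ℝ => 1 + ((k : ℝ) + 1) * z ^ 2) z :=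
    analyticAt_const.add (analyticAt_const.mul (analyticAt_id.pow 2))
  exact h1.fun_div h2 (by positivity)

lemma sq_cond (a b c d : ℝ) (h : (c, d) ≠ (0, 0)) : ¬ Coincide univ (fun z => z ^ 2) id a b c d := by
  intro hC
  have hc : c = 0 := by
    by_contra hc
    have := (hC (-d / c) (mem_univ _)).1
    apply this
    simp only [id]
    field_simp
    ring
  have hd : d ≠ 0 := fun hd => h (by rw [hc, hd])
  have e0 := (hC 0 (mem_univ _)).2
  have e1 := (hC 1 (mem_univ _)).2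
  have e2 := (hC (-1) (mem_univ _)).2
  simp only [id, hc, zero_mul, zero_add] at e0 e1 e2
  rw [eq_div_iff hd] at e0 e1 e2
  apply hd
  linarith

lemma fk_cond (n k : ℕ) (a b c d : ℝ) : ¬ Coincide univ (fk n k) (fun z => z ^ 2) a b c d := by
  intro hC
  have e1 := (hC 1 (mem_univ _)).2
  have e2 := (hC (-1) (mem_univ _)).2
  simp only [neg_one_sq, one_pow] at e1 e2
  rw [← e1] at e2
  unfold fk at e2
  rw [Odd.neg_one_pow ⟨n, rfl⟩, neg_one_sq, one_pow, one_pow] at e2
  have : (0 : ℝ) < 1 + ((k : ℝ) + 1) * 1 := by positivity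
  rw [div_left_inj' this.ne'] at e2
  norm_num at e2

/-- the coefficients -/
noncomputable def ck (n k j : ℕ) : ℝ :=
  if 2 * n + 1 ≤ j ∧ Even (j - (2 * n + 1)) then (-((k : ℝ) + 1)) ^ ((j - (2 * n + 1)) / 2) else 0

lemma coeff_fk (n k : ℕ) : coeff (fk n k) = ck n k := by
  have h1 := fs_at (fk_an n k 0 (mem_univ _))
  have h2 : HasFPowerSeriesAt (fk n k) (FormalMultilinearSeries.ofScalars ℝ (ck n k)) 0 := by
    rw [hasFPowerSeriesAt_iff]
    have hev : ∀ᶠ z : ℝ in 𝓝 0, |(-((k : ℝ) + 1)) * z ^ 2| < 1 := by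
      have hc : ContinuousAt (fun z : ℝ => |(-((k : ℝ) + 1)) * z ^ 2|) 0 := by fun_prop
      refine hc.eventually (gt_mem_nhds ?_)
      simp
    filter_upwards [hev] with z hz
    have g1 := (hasSum_geometric_of_abs_lt_one hz).mul_left (z ^ (2 * n + 1))
    have hinj : Function.Injective fun t : ℕ => 2 * n + 1 + 2 * t := fun a b hab => by
      simp only at hab
      omega
    have g2 : HasSum ((fun j => z ^ j • (FormalMultilinearSeries.ofScalars ℝ (ck n k)).coeff j) ∘
        fun t : ℕ => 2 * n + 1 + 2 * t) (fk n k (0 + z)) := by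
      convert! g1 using 1
      · funext t
        simp only [Function.comp_apply, FormalMultilinearSeries.coeff_ofScalars, smul_eq_mul]
        unfold ck
        rw [if_pos ⟨by omega, ⟨t, by omega⟩⟩, show (2 * n + 1 + 2 * t - (2 * n + 1)) / 2 = t by omega, pow_add,
          pow_mul, mul_pow]
        ring
      · unfold fk
        rw [zero_add, div_eq_mul_inv]
        congr 2
        ring
    refine (hinj.hasSum_iff ?_).1 g2
    intro j hj
    rw [FormalMultilinearSeries.coeff_ofScalars]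
    unfold ck
    rw [if_neg, smul_zero]
    rintro ⟨hj1, t, ht⟩
    exact hj ⟨t, by simp only; omega⟩
  have h3 := h1.eq_formalMultilinearSeries h2
  unfold fs at h3
  exact FormalMultilinearSeries.ofScalars_series_injective ℝ ℝ h3

lemma ext_zero {n k : ℕ} {A B : Matrix (Fin n) (Fin n) ℝ} (hA : A ^ n = 0) (h : Ext (fk n k) A B) : B = 0 := by
  unfold Ext at h
  have h1 : ∀ N : ℕ, ∑ j ∈ Finset.range N, coeff (fk n k) j • A ^ j = 0 := by
    intro N
    refine Finset.sum_eq_zero fun j _ => ?_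
    rw [coeff_fk]
    by_cases hj : 2 * n + 1 ≤ j
    · have : A ^ j = 0 := by
        obtain ⟨i, rfl⟩ : ∃ i, j = n + i := ⟨j - n, by omega⟩
        rw [pow_add, hA, zero_mul]
      rw [this, smul_zero]
    · unfold ck
      rw [if_neg (fun h => hj h.1), zero_smul]
  simp only [h1] at h
  exact (tendsto_nhds_unique h tendsto_const_nhds)

lemma terms {h : ℝ → ℝ} {n : ℕ} {A B : Matrix (Fin n) (Fin n) ℝ} (hE : Ext h A B) :
    Tendsto (fun N : ℕ => coeff h N • A ^ N) atTop (𝓝 0) := by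
  unfold Ext at hE
  have h1 := ((tendsto_add_atTop_iff_nat 1).2 hE).sub hE
  rw [sub_self] at h1
  refine h1.congr fun N => ?_
  rw [Finset.sum_range_succ]
  abel

theorem neg (n : ℕ) : ∃ f g : ℕ → ℝ → ℝ, (∀ k, AnalyticOnNhd ℝ (f k) univ ∧ AnalyticOnNhd ℝ (g k) univ) ∧
    (∀ k : ℕ, ∀ a b c d : ℝ, (c, d) ≠ (0, 0) → ¬ Coincide univ (g k) id a b c d) ∧
    (∀ k l : ℕ, ∀ a b c d : ℝ, (c, d) ≠ (0, 0) → ¬ Coincide univ (f k) (g l) a b c d) ∧
    ∀ A : Matrix (Fin n) (Fin n) ℝ, (∀ k, ∃ B, Ext (f k) A B) → ∀ k, Ext (f k) A 0 := by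
  refine ⟨fk n, fun _ z => z ^ 2, fun k => ⟨fk_an n k, fun z _ => analyticAt_id.pow 2⟩,
    fun k => sq_cond, fun k l a b c d _ => fk_cond n k a b c d, fun A hA k => ?_⟩
  have hnil : A ^ n = 0 := by
    refine nilp A (2 * n + 1) fun k => ?_
    obtain ⟨B, hB⟩ := hA k
    have h1 := terms hB
    have h2 : Tendsto (fun t : ℕ => 2 * n + 1 + 2 * t) atTop atTop := by
      refine tendsto_atTop_mono (fun t => ?_) tendsto_id
      show t ≤ 2 * n + 1 + 2 * t
      omega
    refine (h1.comp h2).congr fun t => ?_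
    simp only [Function.comp_apply]
    rw [coeff_fk]
    unfold ck
    rw [if_pos ⟨by omega, ⟨t, by omega⟩⟩, show (2 * n + 1 + 2 * t - (2 * n + 1)) / 2 = t by omega]
  obtain ⟨B, hB⟩ := hA k
  have := ext_zero hnil hB
  rwa [this] at hB

end Q271.LM
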