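import Pool.Agent.Q271.LM.Step

/-!
# The choice of the next point
-/

set_option autoImplicit false

open Set MeasureTheory Topology Filter

namespace Q271.LM

lemma small {c1 H m : ℝ} (hc1 : 0 < c1) (hm : 0 < m) (hH : 1 ≤ H) (h : c1 / m < H) : c1 / H ^ 27 < m := by
  have h1 : H ≤ H ^ 27 := le_self_pow₀ hH (by norm_num)
  have h2 : c1 / H ^ 27 ≤ c1 / H := by gcongr
  have h3 : c1 / H < m := by
    rw [div_lt_iff₀ (by linarith)]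
    rw [div_lt_iff₀ hm] at h
    linarith
  linarith

lemma pick (c : Ctx) {K : ℕ} {ω0 : ℝ × ℝ × ℝ} (h0 : Good c K ω0) (i i' : ℕ) {n0 : Z4} (hn0 : n0 ≠ 0)
    {P : ℝ × ℝ × ℝ → Prop} (hP : ∀ᶠ ω in 𝓝 ω0, P ω) (B : ℝ) :
    ∃ r > 0, ∃ H : ℝ, B ≤ H ∧ (∀ ω, dist ω ω0 ≤ r → P ω ∧ ∀ k < K, ∀ n : Z4, n ≠ 0 → ‖n‖ ≤ H →
      |Psi (c.G k ω0.1) (sl ω0) n| / 2 ≤ |Psi (c.G k ω.1) (sl ω) n|) ∧
    ∃ ω1, dist ω1 ω0 < r ∧ Good c (K + 1) ω1 ∧ (∀ k < K + 1, ∀ n : Z4, H ≤ ‖n‖ →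
      ‖n‖ / ‖n‖ ^ 108 ≤ |Psi (c.G k ω1.1) (sl ω1) n|) ∧
      (∃ Q : ℕ, 2 ≤ Q ∧ ∃ a b : ℤ, (Q : ℝ) * al c i ω1 = a ∧ (Q : ℝ) * be c i ω1 = b) ∧
      Psi (c.F i' ω1.1) (sl ω1) n0 ≠ 0 := by
  obtain ⟨c1, hc1, ρ0, hρ0, hkeep⟩ := keep c h0
  obtain ⟨ρP, hρP, hPb⟩ := Metric.eventually_nhds_iff.1 hP
  obtain ⟨x0, hx0⟩ : ∃ x0, x0 = ω0.1 := ⟨_, rfl⟩
  obtain ⟨α0, hα0⟩ : ∃ α0, α0 = al c i ω0 := ⟨_, rfl⟩
  obtain ⟨β0, hβ0⟩ : ∃ β0, β0 = be c i ω0 := ⟨_, rfl⟩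
  have hcur : cur c i (α0, β0, x0) = ω0 := by rw [hα0, hβ0, hx0]; exact cur_al c (h0.ne i)
  have hm0 : x0 ∈ Ioo 0 c.R := hx0 ▸ h0.mem
  have hβne : β0 ≠ 0 := hβ0 ▸ mul_ne_zero (sub_ne_zero.2 (h0.ne i)) h0.tau
  have hne0 : c.F i x0 - c.u i ≠ 0 := hx0 ▸ sub_ne_zero.2 (h0.ne i)
  obtain ⟨ρ1, hρ1, C, hC, hpts⟩ := pts (x0 := x0) (c.hF i) c.hG hm0 (fun k => hx0 ▸ h0.wr i k)
    (3 + |α0| + |β0|) (K + 1)
  have hdiff : DifferentiableAt ℝ (cur c i) (α0, β0, x0) := by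
    have dF : DifferentiableAt ℝ (fun p : ℝ × ℝ × ℝ => c.F i p.2.2) (α0, β0, x0) :=
      DifferentiableAt.comp (g := c.F i) (f := fun p : ℝ × ℝ × ℝ => p.2.2) (α0, β0, x0)
        (c.hF i _ hm0).differentiableAt (by fun_prop)
    have d2 : DifferentiableAt ℝ (fun p : ℝ × ℝ × ℝ => c.F i p.2.2 - c.u i) (α0, β0, x0) := dF.sub_const _
    have d3 : DifferentiableAt ℝ (fun p : ℝ × ℝ × ℝ => p.1 - c.u i) (α0, β0, x0) := by fun_prop
    have d4 : DifferentiableAt ℝ (fun p : ℝ × ℝ × ℝ => p.2.1) (α0, β0, x0) := by fun_prop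
    have d5 : DifferentiableAt ℝ (fun p : ℝ × ℝ × ℝ => p.2.2) (α0, β0, x0) := by fun_prop
    have d6 : DifferentiableAt ℝ (fun p : ℝ × ℝ × ℝ => (p.1 - c.u i) / (c.F i p.2.2 - c.u i)) (α0, β0, x0) := by
      simp only [div_eq_mul_inv]
      exact d3.fun_mul (d2.fun_inv hne0)
    have d7 : DifferentiableAt ℝ (fun p : ℝ × ℝ × ℝ => p.2.1 / (c.F i p.2.2 - c.u i)) (α0, β0, x0) := by
      simp only [div_eq_mul_inv]
      exact d4.fun_mul (d2.fun_inv hne0)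
    exact d5.prodMk (d6.prodMk d7)
  obtain ⟨Λ, hΛ, hlip⟩ := lipAt hdiff
  obtain ⟨ρ2, hρ2, hlipb⟩ := Metric.eventually_nhds_iff.1 hlip
  obtain ⟨ρ3, hρ3, hin⟩ := Metric.eventually_nhds_iff.1 (Ioo_mem_nhds hm0.1 hm0.2)
  obtain ⟨m, hm⟩ : ∃ m, m = min (min ρ0 ρP) (min ρ1 (min ρ2 ρ3)) := ⟨_, rfl⟩
  have hmpos : 0 < m := by rw [hm]; positivity
  have hm1 : m ≤ ρ0 := hm ▸ (min_le_left _ _).trans (min_le_left _ _)
  have hm2 : m ≤ ρP := hm ▸ (min_le_left _ _).trans (min_le_right _ _)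
  have hm3 : m ≤ ρ1 := hm ▸ (min_le_right _ _).trans (min_le_left _ _)
  have hm4 : m ≤ ρ2 := hm ▸ (min_le_right _ _).trans ((min_le_right _ _).trans (min_le_left _ _))
  have hm5 : m ≤ ρ3 := hm ▸ (min_le_right _ _).trans ((min_le_right _ _).trans (min_le_right _ _))
  obtain ⟨T, hT⟩ : ∃ T : ℝ, T = ((K + 1 : ℕ) : ℝ) * (TT * (14 * C)) := ⟨_, rfl⟩
  have hT0 : 0 ≤ T := by rw [hT]; have := TT_nn; positivity
  obtain ⟨H, hH⟩ : ∃ H, H = max (max B C) (max (c1 / m + 1) (4 * Λ * T / c1)) := ⟨_, rfl⟩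
  have hHB : B ≤ H := hH ▸ (le_max_left _ _).trans (le_max_left _ _)
  have hHC : C ≤ H := hH ▸ (le_max_right _ _).trans (le_max_left _ _)
  have hHm : c1 / m < H := by
    have : c1 / m + 1 ≤ H := hH ▸ (le_max_left _ _).trans (le_max_right _ _)
    linarith
  have hHT : 4 * Λ * T / c1 ≤ H := hH ▸ (le_max_right _ _).trans (le_max_right _ _)
  have hH1 : 1 ≤ H := hC.trans hHC
  have hH0 : 0 < H := by linarith
  obtain ⟨r, hr⟩ : ∃ r, r = c1 / H ^ 27 := ⟨_, rfl⟩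
  have hr0 : 0 < r := by rw [hr]; positivity
  have hrm : r < m := hr ▸ small hc1 hmpos hH1 hHm
  refine ⟨r, hr0, H, hHB, fun ω hω => ⟨hPb (by linarith), hkeep H hH1 ω (by linarith) (hr ▸ hω)⟩, ?_⟩
  obtain ⟨ρ, hρ⟩ : ∃ ρ, ρ = r / (2 * Λ) := ⟨_, rfl⟩
  have hρpos : 0 < ρ := by rw [hρ]; positivity
  have hρΛ : Λ * ρ = r / 2 := by rw [hρ]; field_simp
  have hρr : ρ ≤ r / 2 := by nlinarith
  -- the rational numbers
  obtain ⟨Q0, hQ0⟩ := exists_nat_gt (max (1 / ρ) (1 / |β0|))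
  obtain ⟨Q, hQdef⟩ : ∃ Q, Q = Q0 + 2 := ⟨_, rfl⟩
  have hQ2 : 2 ≤ Q := by omega
  have hQpos : (0 : ℝ) < Q := by exact_mod_cast (show 0 < Q by omega)
  have hQne : (Q : ℝ) ≠ 0 := hQpos.ne'
  have hQ0Q : (Q0 : ℝ) < Q := by exact_mod_cast (show Q0 < Q by omega)
  have hQρ : 1 / (Q : ℝ) < ρ := by
    rw [div_lt_iff₀ hQpos]
    have : 1 / ρ < Q := (le_max_left _ _).trans_lt (hQ0.trans hQ0Q)
    rw [div_lt_iff₀ hρpos] at this
    linarith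
  have hQβ : 1 / (Q : ℝ) < |β0| := by
    have hb := abs_pos.2 hβne
    rw [div_lt_iff₀ hQpos]
    have : 1 / |β0| < Q := (le_max_right _ _).trans_lt (hQ0.trans hQ0Q)
    rw [div_lt_iff₀ hb] at this
    linarith
  have hQ1 : 1 / (Q : ℝ) ≤ 1 := by
    rw [div_le_one hQpos]
    exact_mod_cast (show 1 ≤ Q by omega)
  obtain ⟨b, hb⟩ : ∃ b : ℤ, |(b : ℝ) / Q - β0| ≤ 1 / Q := ⟨_, (rat β0 (by omega)).1⟩
  obtain ⟨β, hβ⟩ : ∃ β : ℝ, β = b / Q := ⟨_, rfl⟩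
  rw [← hβ] at hb
  have hβne' : β ≠ 0 := by
    rintro h
    rw [h, zero_sub, abs_neg] at hb
    linarith
  obtain ⟨a, ha, hna⟩ : ∃ a : ℤ, |(a : ℝ) / Q - α0| ≤ 1 / Q ∧
      ¬ ∀ x ∈ Ioo 0 c.R, Psi (c.F i' x) (((a : ℝ) / Q - c.F i x) / β) n0 = 0 := by
    by_contra hcon
    push Not at hcon
    refine two c i i' hn0 hβne' ?_ (hcon _ (rat α0 (by omega)).1) (hcon _ (rat α0 (by omega)).2)
    intro h
    field_simp at h
    push_cast at h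
    linarith
  obtain ⟨α, hα⟩ : ∃ α : ℝ, α = a / Q := ⟨_, rfl⟩
  rw [← hα] at ha hna
  have hL : 1 + |α| + |β| ≤ 3 + |α0| + |β0| := by
    have e1 := abs_sub_abs_le_abs_sub α α0
    have e2 := abs_sub_abs_le_abs_sub β β0
    linarith
  -- the bad sets
  obtain ⟨H', hH'⟩ : ∃ H', H' = max H (2 * T / ρ) := ⟨_, rfl⟩
  have hH'H : H ≤ H' := hH' ▸ le_max_left _ _
  have hH'T : 2 * T / ρ ≤ H' := hH' ▸ le_max_right _ _
  have hH'1 : 1 ≤ H' := hH1.trans hH'H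
  have B1 := bad hC hpts hβne' hL 28 hHC (show ρ ≤ ρ1 by linarith)
  have B2 := bad hC hpts hβne' hL 1 (hHC.trans hH'H) (show ρ ≤ ρ1 by linarith)
  have M1 : ((K + 1 : ℕ) : ℝ) * (TT * (14 * C) / H ^ 28) ≤ ρ / 2 := by
    have e1 : ((K + 1 : ℕ) : ℝ) * (TT * (14 * C) / H ^ 28) = T / H ^ 28 := by rw [hT]; ring
    rw [e1, hρ, hr]
    rw [div_le_iff₀ hc1] at hHT
    rw [div_div, div_div, div_le_div_iff₀ (by positivity) (by positivity)]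
    have e2 : T * (H ^ 27 * (2 * Λ * 2)) = (4 * Λ * T) * H ^ 27 := by ring
    have e3 : c1 * H ^ 28 = (H * c1) * H ^ 27 := by ring
    rw [e2, e3]
    gcongr
  have M2 : ((K + 1 : ℕ) : ℝ) * (TT * (14 * C) / H' ^ 1) ≤ ρ / 2 := by
    have e1 : ((K + 1 : ℕ) : ℝ) * (TT * (14 * C) / H' ^ 1) = T / H' := by rw [hT]; ring
    rw [e1, div_le_div_iff₀ (by linarith) (by norm_num)]
    rw [div_le_iff₀ hρpos] at hH'T
    linarith
  have C3 : ({x | x ∈ Ioo 0 c.R ∧ ((∃ i k, W (c.F i) (c.G k) x = 0) ∨ ∃ i, c.F i x = c.u i)} ∪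
      ({x | x ∈ Ioo 0 c.R ∧ Psi (c.F i' x) ((α - c.F i x) / β) n0 = 0} ∪
      ⋃ k : ℕ, ⋃ n : Z4, ⋃ (_ : n ≠ 0), {x | x ∈ Ioo 0 c.R ∧ Psi (c.G k x) ((α - c.F i x) / β) n = 0})).Countable :=
    (Z_ct c).union ((zero_ct' c i i' hβne' hna).union (countable_iUnion fun k => countable_iUnion fun n =>
      countable_iUnion fun hn => zero_ct c i k hβne' hn))
  obtain ⟨x, hx, hx1, hx2, hx3⟩ := avoid (a := x0 - ρ) (b := x0 + ρ) (m := ρ / 2) (by positivity) (by linarith)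
    (B1.trans (ENNReal.ofReal_le_ofReal M1)) (B2.trans (ENNReal.ofReal_le_ofReal M2)) C3
  have hxd : dist x x0 < ρ := by
    rw [Real.dist_eq, abs_lt]
    exact ⟨by linarith [hx.1], by linarith [hx.2]⟩
  have hxR : x ∈ Ioo 0 c.R := hin (by linarith)
  simp only [mem_union, mem_ofPred_eq, mem_iUnion, not_or, not_and, not_exists] at hx3
  obtain ⟨hx4, hx5, hx6⟩ := hx3
  have hwr := (hx4 hxR).1
  have hne := (hx4 hxR).2
  have hsl : sl (cur c i (α, β, x)) = (α - c.F i x) / β := sl_cur c hβne' (hne i)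
  have hdist : dist ((α, β, x) : ℝ × ℝ × ℝ) (α0, β0, x0) ≤ ρ := by
    rw [Prod.dist_eq, Prod.dist_eq, Real.dist_eq, Real.dist_eq]
    exact max_le (by linarith) (max_le (by linarith) hxd.le)
  refine ⟨cur c i (α, β, x), ?_, ⟨hxR, hwr, hne, ?_, ?_⟩, ?_, ⟨Q, hQ2, a, b, ?_, ?_⟩, ?_⟩
  · have := hlipb (show dist ((α, β, x) : ℝ × ℝ × ℝ) (α0, β0, x0) < ρ2 by linarith)
    rw [hcur] at this
    have h2 : Λ * dist ((α, β, x) : ℝ × ℝ × ℝ) (α0, β0, x0) ≤ Λ * ρ := by gcongr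
    linarith
  · exact div_ne_zero hβne' (sub_ne_zero.2 (hne i))
  · have hk : ∀ k : ℕ, ∃ b > 0, k < K + 1 → ∀ n : Z4, n ≠ 0 →
        b ≤ ‖n‖ ^ 26 * |Psi (c.G k x) ((α - c.F i x) / β) n| := by
      intro k
      by_cases hk : k < K + 1
      · obtain ⟨b, hb, h⟩ := fin_low (fun n => ‖n‖ ^ 26 * |Psi (c.G k x) ((α - c.F i x) / β) n|)
          (fun n hn => by
            have h1 := one_le hn
            have h2 := abs_pos.2 (hx6 k n hn hxR)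
            positivity) H' (fun n hn hnH => by
            have h1 := one_le hn
            have h2 : ¬ |Psi (c.G k x) ((α - c.F i x) / β) n| ≤ ‖n‖ / ‖n‖ ^ (3 * (1 + 8)) :=
              fun h => hx2 ⟨hx, k, hk, n, hnH, h⟩
            push Not at h2
            have h3 : ‖n‖ / ‖n‖ ^ (3 * (1 + 8)) = 1 / ‖n‖ ^ 26 := by
              norm_num
              field_simp
            rw [h3, div_lt_iff₀ (by positivity)] at h2
            linarith)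
        exact ⟨b, hb, fun _ => h⟩
      · exact ⟨1, one_pos, fun h => absurd h hk⟩
    choose b hb hbk using hk
    obtain ⟨m', hm', hmin⟩ := fin_min b (K + 1) fun k _ => hb k
    refine ⟨m', hm', fun k hk n hn => ?_⟩
    rw [hsl]
    have h1 := one_le hn
    rw [div_le_iff₀ (by positivity)]
    have := hbk k hk n hn
    have := hmin k hk
    show m' ≤ |Psi (c.G k x) ((α - c.F i x) / β) n| * ‖n‖ ^ 26
    linarith
  · intro k hk n hn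
    rw [hsl]
    have h2 : ¬ |Psi (c.G k x) ((α - c.F i x) / β) n| ≤ ‖n‖ / ‖n‖ ^ (3 * (28 + 8)) :=
      fun h => hx1 ⟨hx, k, hk, n, hn, h⟩
    push Not at h2
    exact h2.le
  · rw [al_cur c (hne i), hα]
    field_simp
  · rw [be_cur c (hne i), hβ]
    field_simp
  · rw [hsl]
    exact hx5 hxR

end Q271.LM
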