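import Pool.Agent.Q271.LM.Crv

/-!
# One step of the construction
-/

set_option autoImplicit false

open Set MeasureTheory Topology Filter

namespace Q271.LM

/-- the data -/
structure Ctx where
  R : ℝ
  F : ℕ → ℝ → ℝ
  G : ℕ → ℝ → ℝ
  u : ℕ → ℝ
  hR : 0 < R
  hF : ∀ i, AnalyticOnNhd ℝ (F i) (Ioo 0 R)
  hG : ∀ k, AnalyticOnNhd ℝ (G k) (Ioo 0 R)
  ind : ∀ i k, Indep (F i) (G k) (Ioo 0 R)

/-- the slope -/
noncomputable def sl (ω : ℝ × ℝ × ℝ) : ℝ := (ω.2.1 - 1) / ω.2.2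

def al (c : Ctx) (i : ℕ) (ω : ℝ × ℝ × ℝ) : ℝ := c.u i + (c.F i ω.1 - c.u i) * ω.2.1
def be (c : Ctx) (i : ℕ) (ω : ℝ × ℝ × ℝ) : ℝ := (c.F i ω.1 - c.u i) * ω.2.2

structure Good (c : Ctx) (K : ℕ) (ω : ℝ × ℝ × ℝ) : Prop where
  mem : ω.1 ∈ Ioo 0 c.R
  wr : ∀ i k, W (c.F i) (c.G k) ω.1 ≠ 0
  ne : ∀ i, c.F i ω.1 ≠ c.u i
  tau : ω.2.2 ≠ 0
  bd : ∃ b > 0, ∀ k < K, ∀ n : Z4, n ≠ 0 → b / ‖n‖ ^ 26 ≤ |Psi (c.G k ω.1) (sl ω) n|

/-- the curve -/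
noncomputable def cur (c : Ctx) (i : ℕ) (p : ℝ × ℝ × ℝ) : ℝ × ℝ × ℝ :=
  (p.2.2, (p.1 - c.u i) / (c.F i p.2.2 - c.u i), p.2.1 / (c.F i p.2.2 - c.u i))

lemma sl_cur (c : Ctx) {i : ℕ} {α β x : ℝ} (hβ : β ≠ 0) (hx : c.F i x ≠ c.u i) :
    sl (cur c i (α, β, x)) = (α - c.F i x) / β := by
  have := sub_ne_zero.2 hx
  unfold sl cur
  field_simp
  ring

lemma al_cur (c : Ctx) {i : ℕ} {α β x : ℝ} (hx : c.F i x ≠ c.u i) : al c i (cur c i (α, β, x)) = α := by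
  have := sub_ne_zero.2 hx
  unfold al cur
  field_simp
  ring

lemma be_cur (c : Ctx) {i : ℕ} {α β x : ℝ} (hx : c.F i x ≠ c.u i) : be c i (cur c i (α, β, x)) = β := by
  have := sub_ne_zero.2 hx
  unfold be cur
  field_simp

lemma cur_al (c : Ctx) {i : ℕ} {ω : ℝ × ℝ × ℝ} (hx : c.F i ω.1 ≠ c.u i) :
    cur c i (al c i ω, be c i ω, ω.1) = ω := by
  have := sub_ne_zero.2 hx
  obtain ⟨x, κ, τ⟩ := ω
  unfold al be cur
  simp only [Prod.mk.injEq, true_and]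
  constructor
  · simp only at this
    field_simp
    ring
  · simp only at this
    field_simp

/-- Lipschitz at a point -/
lemma lipAt {E F : Type*} [NormedAddCommGroup E] [NormedSpace ℝ E] [NormedAddCommGroup F] [NormedSpace ℝ F]
    {φ : E → F} {x0 : E} (h : DifferentiableAt ℝ φ x0) :
    ∃ Λ : ℝ, 1 ≤ Λ ∧ ∀ᶠ x in 𝓝 x0, dist (φ x) (φ x0) ≤ Λ * dist x x0 := by
  obtain ⟨C, hC⟩ := h.isBigO_sub.bound
  refine ⟨max 1 C, le_max_left _ _, hC.mono fun x hx => ?_⟩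
  rw [dist_eq_norm, dist_eq_norm]
  exact hx.trans (mul_le_mul_of_nonneg_right (le_max_right _ _) (norm_nonneg _))

lemma Psi_sub (y s y' s' : ℝ) (n : Z4) :
    |Psi y s n - Psi y' s' n| ≤ ‖n‖ * (|s - s'| + |y - y'| + |s * y - s' * y'|) := by
  have c2 : |(n.2.1 : ℝ)| ≤ ‖n‖ := by
    rw [← Int.norm_eq_abs]; exact (norm_fst_le n.2).trans (norm_snd_le n)
  have c3 : |(n.2.2.1 : ℝ)| ≤ ‖n‖ := by
    rw [← Int.norm_eq_abs]; exact (norm_fst_le n.2.2).trans ((norm_snd_le n.2).trans (norm_snd_le n))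
  have c4 : |(n.2.2.2 : ℝ)| ≤ ‖n‖ := by
    rw [← Int.norm_eq_abs]; exact (norm_snd_le n.2.2).trans ((norm_snd_le n.2).trans (norm_snd_le n))
  have e : Psi y s n - Psi y' s' n = n.2.1 * (s - s') + n.2.2.1 * (y - y') + n.2.2.2 * (s * y - s' * y') := by
    unfold Psi; ring
  rw [e]
  refine (abs_add_three _ _ _).trans ?_
  rw [abs_mul, abs_mul, abs_mul, mul_add, mul_add]
  gcongr

/-- near a good point the values of the forms change little -/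
lemma lipG (c : Ctx) {ω0 : ℝ × ℝ × ℝ} (hm : ω0.1 ∈ Ioo 0 c.R) (ht : ω0.2.2 ≠ 0) (K : ℕ) :
    ∃ Λ : ℝ, 1 ≤ Λ ∧ ∀ᶠ ω in 𝓝 ω0, ∀ k < K, ∀ n : Z4,
      |Psi (c.G k ω.1) (sl ω) n - Psi (c.G k ω0.1) (sl ω0) n| ≤ ‖n‖ * (Λ * dist ω ω0) := by
  induction K with
  | zero => exact ⟨1, le_rfl, Eventually.of_forall fun ω k hk => absurd hk (Nat.not_lt_zero _)⟩
  | succ K ih =>
    obtain ⟨Λ1, h1, e1⟩ := ih
    have dG : DifferentiableAt ℝ (fun ω : ℝ × ℝ × ℝ => c.G K ω.1) ω0 :=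
      DifferentiableAt.comp (g := c.G K) (f := fun ω : ℝ × ℝ × ℝ => ω.1) ω0
        (c.hG K _ hm).differentiableAt differentiableAt_fst
    have dS : DifferentiableAt ℝ sl ω0 := by
      unfold sl
      fun_prop (disch := assumption)
    have dP : DifferentiableAt ℝ (fun ω : ℝ × ℝ × ℝ => sl ω * c.G K ω.1) ω0 := dS.mul dG
    obtain ⟨L1, l1, m1⟩ := lipAt dG
    obtain ⟨L2, l2, m2⟩ := lipAt dS
    obtain ⟨L3, l3, m3⟩ := lipAt dP
    refine ⟨Λ1 + L1 + L2 + L3, by linarith, ?_⟩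
    filter_upwards [e1, m1, m2, m3] with ω h1' h2' h3' h4' k hk n
    have hd := dist_nonneg (x := ω) (y := ω0)
    have hn := norm_nonneg n
    rcases Nat.lt_succ_iff_lt_or_eq.1 hk with hk' | rfl
    · refine (h1' k hk' n).trans ?_
      gcongr
      linarith
    · refine (Psi_sub _ _ _ _ n).trans ?_
      rw [Real.dist_eq] at h2' h3' h4'
      have : |sl ω - sl ω0| + |c.G k ω.1 - c.G k ω0.1| + |sl ω * c.G k ω.1 - sl ω0 * c.G k ω0.1| ≤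
          (Λ1 + L1 + L2 + L3) * dist ω ω0 := by nlinarith
      gcongr

/-- the first part of the step -/
lemma keep (c : Ctx) {K : ℕ} {ω0 : ℝ × ℝ × ℝ} (h0 : Good c K ω0) :
    ∃ c1 > 0, ∃ ρ > 0, ∀ H : ℝ, 1 ≤ H → ∀ ω, dist ω ω0 ≤ ρ → dist ω ω0 ≤ c1 / H ^ 27 → ∀ k < K, ∀ n : Z4, n ≠ 0 →
      ‖n‖ ≤ H → |Psi (c.G k ω0.1) (sl ω0) n| / 2 ≤ |Psi (c.G k ω.1) (sl ω) n| := by
  obtain ⟨b, hb, hbd⟩ := h0.bd
  obtain ⟨Λ, hΛ, hev⟩ := lipG c h0.mem h0.tau K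
  obtain ⟨ρ, hρ, hball⟩ := Metric.eventually_nhds_iff.1 hev
  refine ⟨b / (2 * Λ), by positivity, ρ / 2, by positivity, ?_⟩
  intro H hH ω hω1 hω2 k hk n hn hnH
  have e1 := hball (show dist ω ω0 < ρ by linarith) k hk n
  have e2 := hbd k hk n hn
  have hn1 := one_le hn
  have hd := dist_nonneg (x := ω) (y := ω0)
  have e3 : ‖n‖ * (Λ * dist ω ω0) ≤ b / ‖n‖ ^ 26 / 2 := by
    have s1 : ‖n‖ * (Λ * dist ω ω0) ≤ ‖n‖ * (Λ * (b / (2 * Λ) / H ^ 27)) := by gcongr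
    have s2 : ‖n‖ * (Λ * (b / (2 * Λ) / H ^ 27)) = ‖n‖ * b / 2 / H ^ 27 := by field_simp
    have s3 : ‖n‖ * b / 2 / H ^ 27 ≤ ‖n‖ * b / 2 / ‖n‖ ^ 27 := by gcongr
    have s4 : ‖n‖ * b / 2 / ‖n‖ ^ 27 = b / ‖n‖ ^ 26 / 2 := by field_simp
    linarith
  have e4 : |Psi (c.G k ω0.1) (sl ω0) n| ≤ |Psi (c.G k ω.1) (sl ω) n| +
      |Psi (c.G k ω.1) (sl ω) n - Psi (c.G k ω0.1) (sl ω0) n| := by
    have := abs_sub_abs_le_abs_sub (Psi (c.G k ω0.1) (sl ω0) n) (Psi (c.G k ω.1) (sl ω) n)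
    rw [abs_sub_comm] at this
    linarith
  linarith

lemma lin_ne (c : Ctx) (i : ℕ) {p q : ℝ} (h : ∀ x ∈ Ioo 0 c.R, p + q * c.F i x = 0) : p = 0 ∧ q = 0 := by
  have := c.ind i 0 (p, q, 0, 0) fun x hx => by
    have := h x hx
    unfold Comb
    linarith
  simp only [Prod.ext_iff, Prod.fst_zero, Prod.snd_zero] at this
  exact ⟨this.1, this.2.1⟩

lemma two (c : Ctx) (i i' : ℕ) {n : Z4} (hn : n ≠ 0) {α α' β : ℝ} (hβ : β ≠ 0) (hα : α ≠ α')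
    (h : ∀ x ∈ Ioo 0 c.R, Psi (c.F i' x) ((α - c.F i x) / β) n = 0)
    (h' : ∀ x ∈ Ioo 0 c.R, Psi (c.F i' x) ((α' - c.F i x) / β) n = 0) : False := by
  have h1 : ∀ x ∈ Ioo 0 c.R, (n.2.1 : ℝ) + n.2.2.2 * c.F i' x = 0 := by
    intro x hx
    have e1 := h x hx
    have e2 := h' x hx
    unfold Psi at e1 e2
    have e3 : (α - α') / β * ((n.2.1 : ℝ) + n.2.2.2 * c.F i' x) = 0 := by
      have : (α - α') / β * ((n.2.1 : ℝ) + n.2.2.2 * c.F i' x) =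
        ((n.1 : ℝ) + n.2.1 * ((α - c.F i x) / β) + n.2.2.1 * c.F i' x + n.2.2.2 * ((α - c.F i x) / β * c.F i' x)) -
        ((n.1 : ℝ) + n.2.1 * ((α' - c.F i x) / β) + n.2.2.1 * c.F i' x +
          n.2.2.2 * ((α' - c.F i x) / β * c.F i' x)) := by
        field_simp
        ring
      rw [this, e1, e2, sub_zero]
    rcases mul_eq_zero.1 e3 with h0 | h0
    · exact absurd h0 (div_ne_zero (sub_ne_zero.2 hα) hβ)
    · exact h0
  obtain ⟨k1, k2⟩ := lin_ne c i' h1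
  have h2 : ∀ x ∈ Ioo 0 c.R, (n.1 : ℝ) + n.2.2.1 * c.F i' x = 0 := by
    intro x hx
    have e1 := h x hx
    unfold Psi at e1
    rw [k1, k2] at e1
    linarith
  obtain ⟨k3, k4⟩ := lin_ne c i' h2
  apply hn
  simp only [Prod.ext_iff, Prod.fst_zero, Prod.snd_zero]
  exact ⟨by exact_mod_cast k3, by exact_mod_cast k1, by exact_mod_cast k4, by exact_mod_cast k2⟩

lemma zero_ct (c : Ctx) (i k : ℕ) {α β : ℝ} (hβ : β ≠ 0) {n : Z4} (hn : n ≠ 0) :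
    {x | x ∈ Ioo 0 c.R ∧ Psi (c.G k x) ((α - c.F i x) / β) n = 0}.Countable := by
  have := ctble isPreconnected_Ioo (comb_an (c.hF i) (c.hG k) (mv α β n)) fun h => mv_ne hβ hn (c.ind i k _ h)
  refine this.mono ?_
  rintro x ⟨hx, h⟩
  refine ⟨hx, ?_⟩
  rw [comb_mv _ _ hβ]
  exact h

lemma zero_ct' (c : Ctx) (i i' : ℕ) {α β : ℝ} (hβ : β ≠ 0) {n : Z4}
    (h : ¬ ∀ x ∈ Ioo 0 c.R, Psi (c.F i' x) ((α - c.F i x) / β) n = 0) :
    {x | x ∈ Ioo 0 c.R ∧ Psi (c.F i' x) ((α - c.F i x) / β) n = 0}.Countable := by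
  have := ctble isPreconnected_Ioo (comb_an (c.hF i) (c.hF i') (mv α β n)) fun h' => h fun x hx => by
    have := h' x hx
    rwa [comb_mv _ _ hβ] at this
  refine this.mono ?_
  rintro x ⟨hx, h⟩
  refine ⟨hx, ?_⟩
  rw [comb_mv _ _ hβ]
  exact h

lemma Z_ct (c : Ctx) : {x | x ∈ Ioo 0 c.R ∧ ((∃ i k, W (c.F i) (c.G k) x = 0) ∨ ∃ i, c.F i x = c.u i)}.Countable := by
  have h1 : (⋃ i, ⋃ k, {x | x ∈ Ioo 0 c.R ∧ W (c.F i) (c.G k) x = 0}).Countable :=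
    countable_iUnion fun i => countable_iUnion fun k => W_ne c.hR (c.hF i) (c.hG k) (c.ind i k)
  have h2 : (⋃ i, {x | x ∈ Ioo 0 c.R ∧ c.F i x - c.u i = 0}).Countable :=
    countable_iUnion fun i => ctble isPreconnected_Ioo ((c.hF i).sub analyticOnNhd_const) fun h => by
      have := lin_ne c i (p := -c.u i) (q := 1) fun x hx => by
        have e : c.F i x - c.u i = 0 := h x hx
        linarith
      exact one_ne_zero this.2
  refine (h1.union h2).mono ?_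
  rintro x ⟨hx, ⟨i, k, h⟩ | ⟨i, h⟩⟩
  · left
    simp only [mem_iUnion]
    exact ⟨i, k, hx, h⟩
  · right
    simp only [mem_iUnion]
    exact ⟨i, hx, sub_eq_zero.2 h⟩

/-- a positive function on the nonzero vectors which is at least one far away is bounded below -/
lemma fin_low (φ : Z4 → ℝ) (h0 : ∀ n ≠ 0, 0 < φ n) (H : ℝ) (h1 : ∀ n : Z4, n ≠ 0 → H ≤ ‖n‖ → 1 ≤ φ n) :
    ∃ c > 0, ∀ n ≠ 0, c ≤ φ n := by
  have hf : {n : Z4 | n ≠ 0 ∧ ‖n‖ ≤ H}.Finite := by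
    refine ((isCompact_closedBall (0 : Z4) H).finite_of_discrete).subset ?_
    rintro n ⟨_, hn⟩
    simpa using hn
  rcases {n : Z4 | n ≠ 0 ∧ ‖n‖ ≤ H}.eq_empty_or_nonempty with he | hne
  · refine ⟨1, one_pos, fun n hn => h1 n hn ?_⟩
    by_contra hc
    push Not at hc
    have : n ∈ {n : Z4 | n ≠ 0 ∧ ‖n‖ ≤ H} := ⟨hn, hc.le⟩
    rw [he] at this
    exact this
  · obtain ⟨n0, hn0, hmin⟩ := Set.exists_min_image _ φ hf hne
    refine ⟨min 1 (φ n0), lt_min one_pos (h0 n0 hn0.1), fun n hn => ?_⟩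
    by_cases hH : ‖n‖ ≤ H
    · exact (min_le_right _ _).trans (hmin n ⟨hn, hH⟩)
    · exact (min_le_left _ _).trans (h1 n hn (not_le.1 hH).le)

lemma fin_min (c : ℕ → ℝ) (K : ℕ) (h : ∀ k < K, 0 < c k) : ∃ m > 0, ∀ k < K, m ≤ c k := by
  induction K with
  | zero => exact ⟨1, one_pos, fun k hk => absurd hk (Nat.not_lt_zero _)⟩
  | succ K ih =>
    obtain ⟨m, hm, h1⟩ := ih fun k hk => h k (by omega)
    refine ⟨min m (c K), lt_min hm (h K (by omega)), fun k hk => ?_⟩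
    rcases Nat.lt_succ_iff_lt_or_eq.1 hk with hk' | rfl
    · exact (min_le_left _ _).trans (h1 k hk')
    · exact min_le_right _ _

/-- a rational number near a real number, two choices -/
lemma rat (t : ℝ) {Q : ℕ} (hQ : 0 < Q) : |(⌊Q * t⌋ : ℝ) / Q - t| ≤ 1 / Q ∧ |((⌊Q * t⌋ + 1 : ℤ) : ℝ) / Q - t| ≤ 1 / Q := by
  have hQ' : (0 : ℝ) < Q := by exact_mod_cast hQ
  have h1 := Int.floor_le (Q * t)
  have h2 := Int.lt_floor_add_one (Q * t)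
  have e : ∀ z : ℝ, z / Q - t = (z - Q * t) / Q := fun z => by field_simp
  rw [e, e, abs_div, abs_div, abs_of_pos hQ']
  constructor
  · gcongr
    rw [abs_le]; constructor <;> linarith
  · gcongr
    push_cast
    rw [abs_le]; constructor <;> linarith

/-- a point outside the bad sets -/
lemma avoid {a b : ℝ} {S1 S2 S3 : Set ℝ} {m : ℝ} (hm0 : 0 ≤ m) (hm : 2 * m < b - a)
    (h1 : volume S1 ≤ ENNReal.ofReal m)
    (h2 : volume S2 ≤ ENNReal.ofReal m) (h3 : S3.Countable) : ∃ x ∈ Ioo a b, x ∉ S1 ∧ x ∉ S2 ∧ x ∉ S3 := by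
  by_contra hcon
  push Not at hcon
  have hsub : Ioo a b ⊆ S1 ∪ S2 ∪ S3 := by
    intro x hx
    by_cases k1 : x ∈ S1
    · exact Or.inl (Or.inl k1)
    by_cases k2 : x ∈ S2
    · exact Or.inl (Or.inr k2)
    exact Or.inr (hcon x hx k1 k2)
  have h4 := measure_mono (μ := volume) hsub
  have h5 := measure_union_le (μ := volume) (S1 ∪ S2) S3
  have h6 := measure_union_le (μ := volume) S1 S2
  rw [h3.measure_zero volume, add_zero] at h5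
  rw [Real.volume_Ioo] at h4
  have h7 : ENNReal.ofReal (b - a) ≤ ENNReal.ofReal (2 * m) := by
    refine h4.trans (h5.trans (h6.trans ((add_le_add h1 h2).trans ?_)))
    rw [← ENNReal.ofReal_add hm0 hm0, two_mul]
  rw [ENNReal.ofReal_le_ofReal_iff (by linarith)] at h7
  linarith

end Q271.LM
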