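import Mathlib

/-!
# Sublevel sets of the combinations of `1, f, g, f g`
-/

set_option autoImplicit false

open MeasureTheory Set

namespace Q271.LM

/-- well separated points of a set of large measure -/
lemma chain (d : ℝ) (hd : 0 < d) (m : ℕ) : ∀ (S : Set ℝ), BddBelow S →
    ENNReal.ofReal (2 * d * m) < volume S →
    ∃ x : ℕ → ℝ, (∀ i ≤ m, x i ∈ S) ∧ ∀ i < m, x i + d ≤ x (i + 1) := by
  induction m with
  | zero =>
    intro S _ h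
    obtain ⟨x, hx⟩ : S.Nonempty := by
      by_contra hne
      rw [Set.not_nonempty_iff_eq_empty] at hne
      simp [hne] at h
    exact ⟨fun _ => x, fun _ _ => hx, fun i hi => absurd hi (Nat.not_lt_zero _)⟩
  | succ m ih =>
    intro S hb h
    obtain ⟨y, hy⟩ : S.Nonempty := by
      by_contra hne
      rw [Set.not_nonempty_iff_eq_empty] at hne
      simp [hne] at h
    obtain ⟨x0, hx0, hx1⟩ := Real.lt_sInf_add_pos ⟨y, hy⟩ hd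
    have hsub : S ⊆ Icc (sInf S) (x0 + d) ∪ (S ∩ Ici (x0 + d)) := by
      intro z hz
      by_cases h1 : z ≤ x0 + d
      · exact Or.inl ⟨csInf_le hb hz, h1⟩
      · exact Or.inr ⟨hz, (not_le.1 h1).le⟩
    have h2 : volume S ≤ ENNReal.ofReal (2 * d) + volume (S ∩ Ici (x0 + d)) := by
      refine (measure_mono hsub).trans ((measure_union_le _ _).trans ?_)
      gcongr
      rw [Real.volume_Icc]
      apply ENNReal.ofReal_le_ofReal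
      linarith
    have h3 : ENNReal.ofReal (2 * d * m) < volume (S ∩ Ici (x0 + d)) := by
      by_contra hcon
      push Not at hcon
      have h4 := h.trans_le (h2.trans (add_le_add le_rfl hcon))
      rw [← ENNReal.ofReal_add (by positivity) (by positivity)] at h4
      have h5 : 2 * d * ((m + 1 : ℕ) : ℝ) = 2 * d + 2 * d * m := by push_cast; ring
      rw [h5] at h4
      exact lt_irrefl _ h4
    obtain ⟨x, hx, hxd⟩ := ih (S ∩ Ici (x0 + d)) (hb.mono inter_subset_left) h3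
    refine ⟨fun i => Nat.casesOn i x0 x, ?_, ?_⟩
    · intro i hi
      cases i with
      | zero => exact hx0
      | succ i => exact (hx i (by omega)).1
    · intro i hi
      cases i with
      | zero => exact (hx 0 (by omega)).2
      | succ i => exact hxd i (by omega)

/-- a small value of the derivative -/
lemma mvt {φ φ' : ℝ → ℝ} {a b : ℝ} (hφ : ∀ x ∈ Ioo a b, HasDerivAt φ (φ' x) x) {x y d η : ℝ}
    (hx : x ∈ Ioo a b) (hy : y ∈ Ioo a b) (hd : 0 < d) (hxy : x + d ≤ y) (h1 : |φ x| ≤ η) (h2 : |φ y| ≤ η) :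
    ∃ ξ ∈ Ioo a b, x < ξ ∧ ξ < y ∧ |φ' ξ| ≤ 2 * η / d := by
  have hlt : x < y := by linarith
  have hsub : ∀ z ∈ Icc x y, z ∈ Ioo a b := fun z hz => ⟨lt_of_lt_of_le hx.1 hz.1, lt_of_le_of_lt hz.2 hy.2⟩
  obtain ⟨ξ, hξ, he⟩ := exists_hasDerivAt_eq_slope φ φ' hlt
    (fun z hz => (hφ z (hsub z hz)).continuousAt.continuousWithinAt)
    (fun z hz => hφ z (hsub z (Ioo_subset_Icc_self hz)))
  refine ⟨ξ, hsub ξ (Ioo_subset_Icc_self hξ), hξ.1, hξ.2, ?_⟩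
  rw [he, abs_div, abs_of_pos (show 0 < y - x by linarith)]
  have h3 : |φ y - φ x| ≤ 2 * η := by
    have := abs_sub (φ y) (φ x)
    linarith
  have hη : 0 ≤ η := (abs_nonneg _).trans h1
  rw [div_le_div_iff₀ (by linarith) hd]
  nlinarith

/-- eight well separated points with small values give small values of the first three derivatives -/
lemma three {φ φ1 φ2 φ3 : ℝ → ℝ} {a b : ℝ} (h1 : ∀ x ∈ Ioo a b, HasDerivAt φ (φ1 x) x)
    (h2 : ∀ x ∈ Ioo a b, HasDerivAt φ1 (φ2 x) x) (h3 : ∀ x ∈ Ioo a b, HasDerivAt φ2 (φ3 x) x)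
    {d η : ℝ} (hd : 0 < d) (hd1 : d ≤ 1) (x : ℕ → ℝ) (hx : ∀ i ≤ 7, x i ∈ Ioo a b ∧ |φ (x i)| ≤ η)
    (hxd : ∀ i < 7, x i + d ≤ x (i + 1)) :
    ∃ ξ1 ∈ Ioo a b, ∃ ξ2 ∈ Ioo a b, ∃ ξ3 ∈ Ioo a b, |φ1 ξ1| ≤ 8 * η / d ^ 3 ∧ |φ2 ξ2| ≤ 8 * η / d ^ 3 ∧
      |φ3 ξ3| ≤ 8 * η / d ^ 3 := by
  have hη : 0 ≤ η := (abs_nonneg _).trans (hx 0 (by norm_num)).2
  obtain ⟨u0, hu0, u01, u02, hu03⟩ := mvt h1 (hx 0 (by norm_num)).1 (hx 1 (by norm_num)).1 hd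
    (hxd 0 (by norm_num)) (hx 0 (by norm_num)).2 (hx 1 (by norm_num)).2
  obtain ⟨u1, hu1, u11, u12, hu13⟩ := mvt h1 (hx 2 (by norm_num)).1 (hx 3 (by norm_num)).1 hd
    (hxd 2 (by norm_num)) (hx 2 (by norm_num)).2 (hx 3 (by norm_num)).2
  obtain ⟨u2, hu2, u21, u22, hu23⟩ := mvt h1 (hx 4 (by norm_num)).1 (hx 5 (by norm_num)).1 hd
    (hxd 4 (by norm_num)) (hx 4 (by norm_num)).2 (hx 5 (by norm_num)).2
  obtain ⟨u3, hu3, u31, u32, hu33⟩ := mvt h1 (hx 6 (by norm_num)).1 (hx 7 (by norm_num)).1 hd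
    (hxd 6 (by norm_num)) (hx 6 (by norm_num)).2 (hx 7 (by norm_num)).2
  have g1 := hxd 1 (by norm_num)
  have g3 := hxd 3 (by norm_num)
  have g5 := hxd 5 (by norm_num)
  norm_num at g1 g3 g5
  obtain ⟨v0, hv0, v01, v02, hv03⟩ := mvt h2 hu0 hu1 hd (by linarith) hu03 hu13
  obtain ⟨v1, hv1, v11, v12, hv13⟩ := mvt h2 hu2 hu3 hd (by linarith) hu23 hu33
  obtain ⟨w, hw, w1, w2, hw3⟩ := mvt h3 hv0 hv1 hd (by linarith) hv03 hv13
  have e1 : 2 * η / d ≤ 8 * η / d ^ 3 := by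
    rw [div_le_div_iff₀ hd (by positivity)]
    have : d ^ 3 ≤ d := by nlinarith [sq_nonneg d, mul_pos hd hd]
    nlinarith
  have e2 : 2 * (2 * η / d) / d ≤ 8 * η / d ^ 3 := by
    have : 2 * (2 * η / d) / d = 4 * η / d ^ 2 := by field_simp; ring
    rw [this, div_le_div_iff₀ (by positivity) (by positivity)]
    have : d ^ 3 ≤ d ^ 2 := by nlinarith [sq_nonneg d]
    nlinarith
  have e3 : 2 * (2 * (2 * η / d) / d) / d = 8 * η / d ^ 3 := by field_simp; ring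
  exact ⟨u0, hu0, v0, hv0, w, hw, hu03.trans e1, hv03.trans e2, hw3.trans e3.le⟩

/-- the determinant -/
def Det (a1 b1 c1 a2 b2 c2 a3 b3 c3 : ℝ) : ℝ :=
  a1 * (b2 * c3 - b3 * c2) - b1 * (a2 * c3 - a3 * c2) + c1 * (a2 * b3 - a3 * b2)

lemma cramer {a1 b1 c1 a2 b2 c2 a3 b3 c3 B w r x y z : ℝ} (hB : |a1| ≤ B ∧ |b1| ≤ B ∧ |c1| ≤ B ∧
    |a2| ≤ B ∧ |b2| ≤ B ∧ |c2| ≤ B ∧ |a3| ≤ B ∧ |b3| ≤ B ∧ |c3| ≤ B) (hw : 0 < w)
    (hD : w ≤ |Det a1 b1 c1 a2 b2 c2 a3 b3 c3|) (h1 : |a1 * x + b1 * y + c1 * z| ≤ r)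
    (h2 : |a2 * x + b2 * y + c2 * z| ≤ r) (h3 : |a3 * x + b3 * y + c3 * z| ≤ r) :
    |x| ≤ 6 * B ^ 2 / w * r ∧ |y| ≤ 6 * B ^ 2 / w * r ∧ |z| ≤ 6 * B ^ 2 / w * r := by
  obtain ⟨A1, B1, C1, A2, B2, C2, A3, B3, C3⟩ := hB
  have hr : 0 ≤ r := (abs_nonneg _).trans h1
  have key : ∀ p q s t : ℝ, |p| ≤ B → |q| ≤ B → |s| ≤ B → |t| ≤ B → |p * q - s * t| ≤ 2 * B ^ 2 := by
    intro p q s t hp hq hs ht
    have hB0 : 0 ≤ B := (abs_nonneg _).trans hp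
    have e1 : |p * q| ≤ B * B := by
      rw [abs_mul]; exact mul_le_mul hp hq (abs_nonneg _) hB0
    have e2 : |s * t| ≤ B * B := by
      rw [abs_mul]; exact mul_le_mul hs ht (abs_nonneg _) hB0
    have := abs_sub (p * q) (s * t)
    nlinarith
  have fin : ∀ X u1 u2 u3 v1 v2 v3 : ℝ, |u1| ≤ r → |u2| ≤ r → |u3| ≤ r → |v1| ≤ 2 * B ^ 2 →
      |v2| ≤ 2 * B ^ 2 → |v3| ≤ 2 * B ^ 2 →
      Det a1 b1 c1 a2 b2 c2 a3 b3 c3 * X = u1 * v1 + u2 * v2 + u3 * v3 → |X| ≤ 6 * B ^ 2 / w * r := by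
    intro X u1 u2 u3 v1 v2 v3 hu1 hu2 hu3 hv1 hv2 hv3 he
    have e1 : |Det a1 b1 c1 a2 b2 c2 a3 b3 c3| * |X| ≤ 6 * B ^ 2 * r := by
      rw [← abs_mul, he]
      have k1 : |u1 * v1| ≤ r * (2 * B ^ 2) := by rw [abs_mul]; exact mul_le_mul hu1 hv1 (abs_nonneg _) hr
      have k2 : |u2 * v2| ≤ r * (2 * B ^ 2) := by rw [abs_mul]; exact mul_le_mul hu2 hv2 (abs_nonneg _) hr
      have k3 : |u3 * v3| ≤ r * (2 * B ^ 2) := by rw [abs_mul]; exact mul_le_mul hu3 hv3 (abs_nonneg _) hr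
      have := abs_add_three (u1 * v1) (u2 * v2) (u3 * v3)
      linarith
    have e2 : w * |X| ≤ 6 * B ^ 2 * r := (mul_le_mul_of_nonneg_right hD (abs_nonneg _)).trans e1
    rw [div_mul_eq_mul_div, le_div_iff₀ hw]
    linarith
  refine ⟨fin x _ _ _ _ _ _ h1 h2 h3 (key b2 c3 b3 c2 B2 C3 B3 C2) (key b3 c1 b1 c3 B3 C1 B1 C3)
    (key b1 c2 b2 c1 B1 C2 B2 C1) ?_, fin y _ _ _ _ _ _ h1 h2 h3 (key a3 c2 a2 c3 A3 C2 A2 C3)
    (key a1 c3 a3 c1 A1 C3 A3 C1) (key a2 c1 a1 c2 A2 C1 A1 C2) ?_, fin z _ _ _ _ _ _ h1 h2 h3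
    (key a2 b3 a3 b2 A2 B3 A3 B2) (key a3 b1 a1 b3 A3 B1 A1 B3) (key a1 b2 a2 b1 A1 B2 A2 B1) ?_⟩
  all_goals (unfold Det; ring)

end Q271.LM
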