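import Pool.Agent.Q271.LM.Sub

/-!
# Sublevel sets of the combinations of `1, f, g, f g` near a point where their Wronskian does not vanish
-/

set_option autoImplicit false

open MeasureTheory Set Topology

namespace Q271.LM

/-- the Wronskian of `1, f, g, f g` -/
noncomputable def W (f g : ℝ → ℝ) (x : ℝ) : ℝ :=
  deriv f x ^ 2 * (3 * deriv (deriv g) x ^ 2 - 2 * deriv g x * deriv (deriv (deriv g)) x) -
  deriv g x ^ 2 * (3 * deriv (deriv f) x ^ 2 - 2 * deriv f x * deriv (deriv (deriv f)) x)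

noncomputable def p1 (f g : ℝ → ℝ) (x : ℝ) : ℝ := deriv f x * g x + f x * deriv g x
noncomputable def p2 (f g : ℝ → ℝ) (x : ℝ) : ℝ :=
  deriv (deriv f) x * g x + 2 * (deriv f x * deriv g x) + f x * deriv (deriv g) x
noncomputable def p3 (f g : ℝ → ℝ) (x : ℝ) : ℝ :=
  deriv (deriv (deriv f)) x * g x + 3 * (deriv (deriv f) x * deriv g x) +
    3 * (deriv f x * deriv (deriv g) x) + f x * deriv (deriv (deriv g)) x

/-- the combination -/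
def Comb (f g : ℝ → ℝ) (m : ℝ × ℝ × ℝ × ℝ) (x : ℝ) : ℝ :=
  m.1 + m.2.1 * f x + m.2.2.1 * g x + m.2.2.2 * (f x * g x)

lemma hd0 {f : ℝ → ℝ} {x : ℝ} (h : AnalyticAt ℝ f x) : HasDerivAt f (deriv f x) x :=
  h.differentiableAt.hasDerivAt

lemma hd1 {f g : ℝ → ℝ} {x : ℝ} (hf : AnalyticAt ℝ f x) (hg : AnalyticAt ℝ g x) :
    HasDerivAt (fun x => f x * g x) (p1 f g x) x := (hd0 hf).mul (hd0 hg)

lemma hd2 {f g : ℝ → ℝ} {x : ℝ} (hf : AnalyticAt ℝ f x) (hg : AnalyticAt ℝ g x) :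
    HasDerivAt (p1 f g) (p2 f g x) x := by
  have := ((hd0 hf.deriv).mul (hd0 hg)).add ((hd0 hf).mul (hd0 hg.deriv))
  refine this.congr_deriv ?_
  unfold p2
  ring

lemma hd3 {f g : ℝ → ℝ} {x : ℝ} (hf : AnalyticAt ℝ f x) (hg : AnalyticAt ℝ g x) :
    HasDerivAt (p2 f g) (p3 f g x) x := by
  have := (((hd0 hf.deriv.deriv).mul (hd0 hg)).add (((hd0 hf.deriv).mul (hd0 hg.deriv)).const_mul 2)).add
    ((hd0 hf).mul (hd0 hg.deriv.deriv))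
  refine this.congr_deriv ?_
  unfold p3
  ring

lemma norm4 {m : ℝ × ℝ × ℝ × ℝ} {R : ℝ} (h1 : |m.1| ≤ R) (h2 : |m.2.1| ≤ R) (h3 : |m.2.2.1| ≤ R)
    (h4 : |m.2.2.2| ≤ R) : ‖m‖ ≤ R := by
  rw [Prod.norm_def, Prod.norm_def, Prod.norm_def]
  exact max_le h1 (max_le h2 (max_le h3 h4))

/-- the constant -/
noncomputable def cst (B w : ℝ) : ℝ := 1 / (2 * (1 + 48 * B ^ 2 / w * (1 + 3 * B)))

lemma cst_pos {B w : ℝ} (hB : 1 ≤ B) (hw : 0 < w) : 0 < cst B w := by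
  unfold cst
  positivity

lemma fin4 {m : ℝ × ℝ × ℝ × ℝ} (hm : m ≠ 0) {B w d : ℝ} (hB : 1 ≤ B) (hw : 0 < w) (hd : 0 < d) (hd1 : d ≤ 1)
    {f g : ℝ → ℝ} {x : ℝ} (z1 : |f x| ≤ B) (z2 : |g x| ≤ B) (z3 : |f x * g x| ≤ B)
    (y2 : |Comb f g m x| ≤ cst B w * d ^ 3 * ‖m‖)
    (k1 : |m.2.1| ≤ 6 * B ^ 2 / w * (8 * cst B w * ‖m‖)) (k2 : |m.2.2.1| ≤ 6 * B ^ 2 / w * (8 * cst B w * ‖m‖))
    (k3 : |m.2.2.2| ≤ 6 * B ^ 2 / w * (8 * cst B w * ‖m‖)) : False := by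
  have hc := cst_pos hB hw
  have hm0 : 0 < ‖m‖ := norm_pos_iff.2 hm
  obtain ⟨T, hT⟩ : ∃ T, T = 6 * B ^ 2 / w * (8 * cst B w * ‖m‖) := ⟨_, rfl⟩
  rw [← hT] at k1 k2 k3
  have hT0 : 0 ≤ T := (abs_nonneg _).trans k1
  have hd3 : d ^ 3 ≤ 1 := pow_le_one₀ hd.le hd1
  have t0 : |Comb f g m x| ≤ cst B w * ‖m‖ := by
    refine y2.trans ?_
    have : cst B w * d ^ 3 * ‖m‖ = cst B w * ‖m‖ * d ^ 3 := by ring
    rw [this]
    exact mul_le_of_le_one_right (by positivity) hd3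
  have k0 : |m.1| ≤ cst B w * ‖m‖ + 3 * B * T := by
    have e : m.1 = Comb f g m x - m.2.1 * f x - m.2.2.1 * g x - m.2.2.2 * (f x * g x) := by
      unfold Comb; ring
    have s1 := abs_sub (Comb f g m x - m.2.1 * f x - m.2.2.1 * g x) (m.2.2.2 * (f x * g x))
    have s2 := abs_sub (Comb f g m x - m.2.1 * f x) (m.2.2.1 * g x)
    have s3 := abs_sub (Comb f g m x) (m.2.1 * f x)
    have t1 : |m.2.1 * f x| ≤ T * B := by rw [abs_mul]; exact mul_le_mul k1 z1 (abs_nonneg _) hT0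
    have t2 : |m.2.2.1 * g x| ≤ T * B := by rw [abs_mul]; exact mul_le_mul k2 z2 (abs_nonneg _) hT0
    have t3 : |m.2.2.2 * (f x * g x)| ≤ T * B := by
      rw [abs_mul]; exact mul_le_mul k3 z3 (abs_nonneg _) hT0
    rw [← e] at s1
    linarith
  have hBT : 0 ≤ 3 * B * T := by positivity
  have hcm : 0 ≤ cst B w * ‖m‖ := by positivity
  have hfin : ‖m‖ ≤ cst B w * ‖m‖ + (1 + 3 * B) * T := by
    have e : cst B w * ‖m‖ + (1 + 3 * B) * T = cst B w * ‖m‖ + T + 3 * B * T := by ring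
    rw [e]
    exact norm4 (by linarith) (by linarith) (by linarith) (by linarith)
  have hfin2 : cst B w * ‖m‖ + (1 + 3 * B) * T = ‖m‖ / 2 := by
    rw [hT]
    have h1 : 1 + 48 * B ^ 2 / w * (1 + 3 * B) ≠ 0 := by positivity
    have h2 : cst B w * (1 + 48 * B ^ 2 / w * (1 + 3 * B)) = 1 / 2 := by
      unfold cst
      field_simp
    calc cst B w * ‖m‖ + (1 + 3 * B) * (6 * B ^ 2 / w * (8 * cst B w * ‖m‖)) =
        cst B w * (1 + 48 * B ^ 2 / w * (1 + 3 * B)) * ‖m‖ := by ring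
      _ = ‖m‖ / 2 := by rw [h2]; ring
  rw [hfin2] at hfin
  linarith

/-- the bounds -/
structure Bds (f g : ℝ → ℝ) (B x : ℝ) : Prop where
  af : AnalyticAt ℝ f x
  ag : AnalyticAt ℝ g x
  a0 : |f x| ≤ B
  b0 : |g x| ≤ B
  c0 : |f x * g x| ≤ B
  a1 : |deriv f x| ≤ B
  b1 : |deriv g x| ≤ B
  c1 : |p1 f g x| ≤ B
  a2 : |deriv (deriv f) x| ≤ B
  b2 : |deriv (deriv g) x| ≤ B
  c2 : |p2 f g x| ≤ B
  a3 : |deriv (deriv (deriv f)) x| ≤ B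
  b3 : |deriv (deriv (deriv g)) x| ≤ B
  c3 : |p3 f g x| ≤ B

/-- the determinant of the derivatives at three points -/
noncomputable def DD (f g : ℝ → ℝ) (ξ : ℝ × ℝ × ℝ) : ℝ := Det (deriv f ξ.1) (deriv g ξ.1) (p1 f g ξ.1)
    (deriv (deriv f) ξ.2.1) (deriv (deriv g) ξ.2.1) (p2 f g ξ.2.1)
    (deriv (deriv (deriv f)) ξ.2.2) (deriv (deriv (deriv g)) ξ.2.2) (p3 f g ξ.2.2)

lemma core {f g : ℝ → ℝ} {a b B w : ℝ} (hB : 1 ≤ B) (hw : 0 < w) (hin : ∀ x ∈ Ioo a b, Bds f g B x)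
    (hD : ∀ ξ1 ∈ Ioo a b, ∀ ξ2 ∈ Ioo a b, ∀ ξ3 ∈ Ioo a b, w ≤ |DD f g (ξ1, ξ2, ξ3)|)
    {m : ℝ × ℝ × ℝ × ℝ} (hm : m ≠ 0) {d : ℝ} (hd : 0 < d) (hle : d ≤ 1) :
    volume {x | x ∈ Ioo a b ∧ |Comb f g m x| ≤ cst B w * d ^ 3 * ‖m‖} ≤ ENNReal.ofReal (14 * d) := by
  by_contra hcon
  push Not at hcon
  have h14 : ENNReal.ofReal (2 * d * (7 : ℕ)) <
      volume {x | x ∈ Ioo a b ∧ |Comb f g m x| ≤ cst B w * d ^ 3 * ‖m‖} := by
    convert hcon using 2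
    push_cast
    ring
  obtain ⟨x, hx, hxd⟩ := chain d hd 7 _ ⟨a, fun y hy => hy.1.1.le⟩ h14
  have hC0 : ∀ x ∈ Ioo a b, HasDerivAt (Comb f g m)
      (deriv f x * m.2.1 + deriv g x * m.2.2.1 + p1 f g x * m.2.2.2) x := by
    intro x hx
    have i := hin x hx
    have := (((hasDerivAt_const x m.1).add ((hd0 i.af).const_mul m.2.1)).add
      ((hd0 i.ag).const_mul m.2.2.1)).add ((hd1 i.af i.ag).const_mul m.2.2.2)
    refine this.congr_deriv ?_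
    ring
  have hC1 : ∀ x ∈ Ioo a b, HasDerivAt (fun x => deriv f x * m.2.1 + deriv g x * m.2.2.1 + p1 f g x * m.2.2.2)
      (deriv (deriv f) x * m.2.1 + deriv (deriv g) x * m.2.2.1 + p2 f g x * m.2.2.2) x := by
    intro x hx
    have i := hin x hx
    exact (((hd0 i.af.deriv).mul_const m.2.1).add ((hd0 i.ag.deriv).mul_const m.2.2.1)).add
      ((hd2 i.af i.ag).mul_const m.2.2.2)
  have hC2 : ∀ x ∈ Ioo a b, HasDerivAt
      (fun x => deriv (deriv f) x * m.2.1 + deriv (deriv g) x * m.2.2.1 + p2 f g x * m.2.2.2)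
      (deriv (deriv (deriv f)) x * m.2.1 + deriv (deriv (deriv g)) x * m.2.2.1 + p3 f g x * m.2.2.2) x := by
    intro x hx
    have i := hin x hx
    exact (((hd0 i.af.deriv.deriv).mul_const m.2.1).add ((hd0 i.ag.deriv.deriv).mul_const m.2.2.1)).add
      ((hd3 i.af i.ag).mul_const m.2.2.2)
  obtain ⟨ξ1, hξ1, ξ2, hξ2, ξ3, hξ3, r1, r2, r3⟩ := three hC0 hC1 hC2 hd hle x hx hxd
  have e8 : 8 * (cst B w * d ^ 3 * ‖m‖) / d ^ 3 = 8 * cst B w * ‖m‖ := by field_simp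
  rw [e8] at r1 r2 r3
  have i1 := hin ξ1 hξ1
  have i2 := hin ξ2 hξ2
  have i3 := hin ξ3 hξ3
  obtain ⟨k1, k2, k3⟩ := cramer ⟨i1.a1, i1.b1, i1.c1, i2.a2, i2.b2, i2.c2, i3.a3, i3.b3, i3.c3⟩ hw
    (hD ξ1 hξ1 ξ2 hξ2 ξ3 hξ3) r1 r2 r3
  obtain ⟨y1, y2⟩ := hx 0 (by norm_num)
  have i0 := hin _ y1
  exact fin4 hm hB hw hd hle i0.a0 i0.b0 i0.c0 y2 k1 k2 k3

lemma bd {φ : ℝ → ℝ} {x0 : ℝ} (hφ : ContinuousAt φ x0) : ∀ᶠ B : ℝ in Filter.atTop, ∀ᶠ x in 𝓝 x0, |φ x| ≤ B := by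
  filter_upwards [Filter.eventually_ge_atTop (|φ x0| + 1)] with B hB
  have := hφ.abs.eventually (gt_mem_nhds (show |φ x0| < |φ x0| + 1 by linarith))
  exact this.mono fun x hx => hx.le.trans hB

lemma sub (f g : ℝ → ℝ) (U : Set ℝ) (hU : IsOpen U) (hf : AnalyticOnNhd ℝ f U) (hg : AnalyticOnNhd ℝ g U)
    {x0 : ℝ} (hx0 : x0 ∈ U) (hW : W f g x0 ≠ 0) :
    ∃ ρ > 0, ∃ c > 0, Ioo (x0 - ρ) (x0 + ρ) ⊆ U ∧ ∀ m : ℝ × ℝ × ℝ × ℝ, m ≠ 0 → ∀ d : ℝ, 0 < d → d ≤ 1 →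
      volume {x | x ∈ Ioo (x0 - ρ) (x0 + ρ) ∧ |Comb f g m x| ≤ c * d ^ 3 * ‖m‖} ≤ ENNReal.ofReal (14 * d) := by
  have F0 := (hf x0 hx0).continuousAt
  have F1 := (hf x0 hx0).deriv.continuousAt
  have F2 := (hf x0 hx0).deriv.deriv.continuousAt
  have F3 := (hf x0 hx0).deriv.deriv.deriv.continuousAt
  have G0 := (hg x0 hx0).continuousAt
  have G1 := (hg x0 hx0).deriv.continuousAt
  have G2 := (hg x0 hx0).deriv.deriv.continuousAt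
  have G3 := (hg x0 hx0).deriv.deriv.deriv.continuousAt
  have P0 : ContinuousAt (fun x => f x * g x) x0 := F0.mul G0
  have P1 : ContinuousAt (p1 f g) x0 := (F1.mul G0).add (F0.mul G1)
  have P2 : ContinuousAt (p2 f g) x0 := ((F2.mul G0).add (continuousAt_const.mul (F1.mul G1))).add (F0.mul G2)
  have P3 : ContinuousAt (p3 f g) x0 :=
    (((F3.mul G0).add (continuousAt_const.mul (F2.mul G1))).add (continuousAt_const.mul (F1.mul G2))).add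
      (F0.mul G3)
  have ev1 : ∀ᶠ ξ in 𝓝 ((x0, x0, x0) : ℝ × ℝ × ℝ), |W f g x0| / 2 < |DD f g ξ| := by
    have c1 : ∀ {φ : ℝ → ℝ}, ContinuousAt φ x0 → ContinuousAt (fun ξ : ℝ × ℝ × ℝ => φ ξ.1) (x0, x0, x0) :=
      fun h => ContinuousAt.comp (f := fun ξ : ℝ × ℝ × ℝ => ξ.1) h continuous_fst.continuousAt
    have c2 : ∀ {φ : ℝ → ℝ}, ContinuousAt φ x0 → ContinuousAt (fun ξ : ℝ × ℝ × ℝ => φ ξ.2.1) (x0, x0, x0) :=
      fun h => ContinuousAt.comp (f := fun ξ : ℝ × ℝ × ℝ => ξ.2.1) h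
        (continuous_fst.comp continuous_snd).continuousAt
    have c3 : ∀ {φ : ℝ → ℝ}, ContinuousAt φ x0 → ContinuousAt (fun ξ : ℝ × ℝ × ℝ => φ ξ.2.2) (x0, x0, x0) :=
      fun h => ContinuousAt.comp (f := fun ξ : ℝ × ℝ × ℝ => ξ.2.2) h
        (continuous_snd.comp continuous_snd).continuousAt
    have hDc : ContinuousAt (DD f g) (x0, x0, x0) := by
      have e1 := ((c2 G2).mul (c3 P3)).sub ((c3 G3).mul (c2 P2))
      have e2 := ((c2 F2).mul (c3 P3)).sub ((c3 F3).mul (c2 P2))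
      have e3 := ((c2 F2).mul (c3 G3)).sub ((c3 F3).mul (c2 G2))
      exact (((c1 F1).mul e1).sub ((c1 G1).mul e2)).add ((c1 P1).mul e3)
    have hD0 : DD f g (x0, x0, x0) = W f g x0 := by
      simp only [DD, Det, W, p1, p2, p3]
      ring
    refine hDc.abs.eventually (lt_mem_nhds ?_)
    show |W f g x0| / 2 < |DD f g (x0, x0, x0)|
    rw [hD0]
    have := abs_pos.2 hW
    linarith
  obtain ⟨ρ1, hρ1, hρ1'⟩ := Metric.eventually_nhds_iff.1 ev1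
  have hwpos : 0 < |W f g x0| / 2 := by
    have := abs_pos.2 hW
    linarith
  obtain ⟨B, hB1, B1, B2, B3, B4, B5, B6, B7, B8, B9, B10, B11, B12⟩ := (Filter.eventually_ge_atTop (1 : ℝ)).and
    ((bd F0).and ((bd G0).and ((bd P0).and ((bd F1).and ((bd G1).and ((bd P1).and ((bd F2).and ((bd G2).and
    ((bd P2).and ((bd F3).and ((bd G3).and (bd P3)))))))))))) |>.exists
  have ev2 : ∀ᶠ x in 𝓝 x0, x ∈ U ∧ Bds f g B x := by
    filter_upwards [hU.mem_nhds hx0, B1, B2, B3, B4, B5, B6, B7, B8, B9, B10, B11, B12] with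
      x h0 h1 h2 h3 h4 h5 h6 h7 h8 h9 h10 h11 h12
    exact ⟨h0, hf x h0, hg x h0, h1, h2, h3, h4, h5, h6, h7, h8, h9, h10, h11, h12⟩
  obtain ⟨ρ2, hρ2, hρ2'⟩ := Metric.eventually_nhds_iff.1 ev2
  have hdist : ∀ x ∈ Ioo (x0 - min ρ1 ρ2) (x0 + min ρ1 ρ2), dist x x0 < min ρ1 ρ2 := by
    intro x hx
    rw [Real.dist_eq, abs_lt]
    exact ⟨by linarith [hx.1], by linarith [hx.2]⟩
  have hin : ∀ x ∈ Ioo (x0 - min ρ1 ρ2) (x0 + min ρ1 ρ2), x ∈ U ∧ Bds f g B x :=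
    fun x hx => hρ2' ((hdist x hx).trans_le (min_le_right _ _))
  refine ⟨min ρ1 ρ2, lt_min hρ1 hρ2, cst B (|W f g x0| / 2), cst_pos hB1 hwpos, fun x hx => (hin x hx).1, ?_⟩
  intro m hm d hd hd1'
  refine core hB1 hwpos (fun x hx => (hin x hx).2) ?_ hm hd hd1'
  intro ξ1 hξ1 ξ2 hξ2 ξ3 hξ3
  have hd' : dist ((ξ1, ξ2, ξ3) : ℝ × ℝ × ℝ) (x0, x0, x0) < ρ1 := by
    rw [Prod.dist_eq, Prod.dist_eq]
    exact max_lt ((hdist _ hξ1).trans_le (min_le_left _ _))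
      (max_lt ((hdist _ hξ2).trans_le (min_le_left _ _)) ((hdist _ hξ3).trans_le (min_le_left _ _)))
  exact (hρ1' hd').le

end Q271.LM
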