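import Pool.Agent.Q271.LM.Sub2

/-!
# If the Wronskian of `1, f, g, f g` vanishes then there is a linear relation
-/

set_option autoImplicit false

open Set Topology

namespace Q271.LM

lemma const_of {φ φ' : ℝ → ℝ} {a b : ℝ} (h : ∀ x ∈ Ioo a b, HasDerivAt φ (φ' x) x)
    (h0 : ∀ x ∈ Ioo a b, φ' x = 0) : ∃ c, ∀ x ∈ Ioo a b, φ x = c := by
  refine isOpen_Ioo.exists_is_const_of_deriv_eq_zero isPreconnected_Ioo
    (fun x hx => (h x hx).differentiableAt.differentiableWithinAt) fun x hx => ?_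
  rw [(h x hx).deriv, h0 x hx]
  rfl

/-- a point where a continuous function does not vanish lies in an interval where it does not vanish -/
lemma shrink {φ : ℝ → ℝ} {a b x : ℝ} (hx : x ∈ Ioo a b) (hφ : ContinuousAt φ x) (h0 : φ x ≠ 0) :
    ∃ a' b', a ≤ a' ∧ b' ≤ b ∧ a' < x ∧ x < b' ∧ ∀ y ∈ Ioo a' b', φ y ≠ 0 := by
  have h1 := (hφ.eventually_ne h0).and (Ioo_mem_nhds hx.1 hx.2)
  obtain ⟨ρ, hρ, h2⟩ := Metric.eventually_nhds_iff.1 h1
  refine ⟨max a (x - ρ), min b (x + ρ), le_max_left _ _, min_le_left _ _, max_lt hx.1 (by linarith),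
    lt_min hx.2 (by linarith), fun y hy => (h2 ?_).1⟩
  rw [Real.dist_eq, abs_lt]
  have := (max_lt_iff.1 hy.1).2
  have := (lt_min_iff.1 hy.2).2
  constructor <;> linarith

lemma rel_of_W {f g : ℝ → ℝ} {a b : ℝ} (hab : a < b) (hf : AnalyticOnNhd ℝ f (Ioo a b))
    (hg : AnalyticOnNhd ℝ g (Ioo a b)) (hW : ∀ x ∈ Ioo a b, W f g x = 0) :
    ∃ a' b', a ≤ a' ∧ a' < b' ∧ b' ≤ b ∧ ∃ m : ℝ × ℝ × ℝ × ℝ, m ≠ 0 ∧ ∀ x ∈ Ioo a' b', Comb f g m x = 0 := by
  by_cases h1 : ∀ x ∈ Ioo a b, deriv f x = 0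
  · obtain ⟨c, hc⟩ := const_of (fun x hx => hd0 (hf x hx)) h1
    refine ⟨a, b, le_rfl, hab, le_rfl, (-c, 1, 0, 0), ?_, fun x hx => ?_⟩
    · intro h
      have := congrArg (fun z : ℝ × ℝ × ℝ × ℝ => z.2.1) h
      norm_num at this
    · unfold Comb
      rw [hc x hx]
      ring
  push Not at h1
  obtain ⟨x1, hx1, h1⟩ := h1
  obtain ⟨a1, b1, ha1, hb1, hxa1, hxb1, hne1⟩ := shrink hx1 (hf x1 hx1).deriv.continuousAt h1
  have hs1 : Ioo a1 b1 ⊆ Ioo a b := Ioo_subset_Ioo ha1 hb1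
  by_cases h2 : ∀ x ∈ Ioo a1 b1, deriv g x * deriv (deriv f) x - deriv f x * deriv (deriv g) x = 0
  · obtain ⟨l, hl⟩ := const_of (φ := fun x => deriv g x / deriv f x)
      (φ' := fun x => (deriv (deriv g) x * deriv f x - deriv g x * deriv (deriv f) x) / deriv f x ^ 2)
      (fun x hx => (hd0 (hg x (hs1 hx)).deriv).div (hd0 (hf x (hs1 hx)).deriv) (hne1 x hx))
      (fun x hx => by
        have := h2 x hx
        rw [show deriv (deriv g) x * deriv f x - deriv g x * deriv (deriv f) x =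
          -(deriv g x * deriv (deriv f) x - deriv f x * deriv (deriv g) x) by ring, this]
        simp)
    obtain ⟨μ, hμ⟩ := const_of (φ := fun x => g x - l * f x) (φ' := fun x => deriv g x - l * deriv f x)
      (fun x hx => (hd0 (hg x (hs1 hx))).sub ((hd0 (hf x (hs1 hx))).const_mul l))
      (fun x hx => by
        have := hl x hx
        rw [div_eq_iff (hne1 x hx)] at this
        rw [this]
        ring)
    refine ⟨a1, b1, ha1, hxa1.trans hxb1, hb1, (-μ, -l, 1, 0), ?_, fun x hx => ?_⟩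
    · intro h
      have := congrArg (fun z : ℝ × ℝ × ℝ × ℝ => z.2.2.1) h
      norm_num at this
    · unfold Comb
      rw [← hμ x hx]
      ring
  push Not at h2
  obtain ⟨x2, hx2, h2⟩ := h2
  obtain ⟨a2, b2, ha2, hb2, hxa2, hxb2, hne2⟩ := shrink
    (φ := fun x => deriv g x * deriv (deriv f) x - deriv f x * deriv (deriv g) x) hx2
    (((hg x2 (hs1 hx2)).deriv.continuousAt.mul (hf x2 (hs1 hx2)).deriv.deriv.continuousAt).sub
      ((hf x2 (hs1 hx2)).deriv.continuousAt.mul (hg x2 (hs1 hx2)).deriv.deriv.continuousAt)) h2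
  have hs2 : Ioo a2 b2 ⊆ Ioo a b := (Ioo_subset_Ioo ha2 hb2).trans hs1
  have hs21 : Ioo a2 b2 ⊆ Ioo a1 b1 := Ioo_subset_Ioo ha2 hb2
  have dD : ∀ x ∈ Ioo a2 b2, HasDerivAt (fun x => deriv g x * deriv (deriv f) x - deriv f x * deriv (deriv g) x)
      (deriv g x * deriv (deriv (deriv f)) x - deriv f x * deriv (deriv (deriv g)) x) x := by
    intro x hx
    have hF := hf x (hs2 hx)
    have hG := hg x (hs2 hx)
    refine (((hd0 hG.deriv).mul (hd0 hF.deriv.deriv)).sub ((hd0 hF.deriv).mul (hd0 hG.deriv.deriv))).congr_deriv ?_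
    ring
  obtain ⟨c, hc⟩ := const_of (a := a2) (b := b2)
    (φ := fun x => f x - 2 * (deriv f x ^ 2 * deriv g x) /
      (deriv g x * deriv (deriv f) x - deriv f x * deriv (deriv g) x)) (φ' := _)
    (fun x hx => by
      have hF := hf x (hs2 hx)
      have hG := hg x (hs2 hx)
      exact (hd0 hF).sub (((((hd0 hF.deriv).pow 2).mul (hd0 hG.deriv)).const_mul 2).div (dD x hx) (hne2 x hx)))
    (fun x hx => by
      have hw := hW x (hs2 hx)
      have hn := hne2 x hx
      unfold W at hw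
      simp only [Nat.cast_ofNat, Nat.add_one_sub_one, pow_one]
      rw [sub_eq_zero, eq_div_iff (pow_ne_zero 2 hn)]
      simp only [Pi.mul_apply, Pi.pow_apply]
      linear_combination (deriv f x) * hw)
  obtain ⟨d, hd⟩ := const_of (a := a2) (b := b2)
    (φ := fun x => g x + 2 * (deriv f x * deriv g x ^ 2) /
      (deriv g x * deriv (deriv f) x - deriv f x * deriv (deriv g) x)) (φ' := _)
    (fun x hx => by
      have hF := hf x (hs2 hx)
      have hG := hg x (hs2 hx)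
      exact (hd0 hG).add ((((hd0 hF.deriv).mul ((hd0 hG.deriv).pow 2)).const_mul 2).div (dD x hx) (hne2 x hx)))
    (fun x hx => by
      have hw := hW x (hs2 hx)
      have hn := hne2 x hx
      unfold W at hw
      simp only [Nat.cast_ofNat, Nat.add_one_sub_one, pow_one]
      rw [add_eq_zero_iff_neg_eq, eq_div_iff (pow_ne_zero 2 hn)]
      simp only [Pi.mul_apply, Pi.pow_apply]
      linear_combination (deriv g x) * hw)
  obtain ⟨e, he⟩ := const_of (a := a2) (b := b2) (φ := fun x => (f x - c) * (g x - d))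
    (φ' := fun x => deriv f x * (g x - d) + (f x - c) * deriv g x)
    (fun x hx => ((hd0 (hf x (hs2 hx))).sub_const c).mul ((hd0 (hg x (hs2 hx))).sub_const d))
    (fun x hx => by
      have h3 := hc x hx
      have h4 := hd x hx
      have hn := hne2 x hx
      have e3 : f x - c = 2 * (deriv f x ^ 2 * deriv g x) /
        (deriv g x * deriv (deriv f) x - deriv f x * deriv (deriv g) x) := by linarith
      have e4 : g x - d = -(2 * (deriv f x * deriv g x ^ 2) /
        (deriv g x * deriv (deriv f) x - deriv f x * deriv (deriv g) x)) := by linarith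
      rw [e3, e4]
      ring)
  refine ⟨a2, b2, ha1.trans ha2, hxa2.trans hxb2, hb2.trans hb1, (c * d - e, -d, -c, 1), ?_, fun x hx => ?_⟩
  · intro h
    have := congrArg (fun z : ℝ × ℝ × ℝ × ℝ => z.2.2.2) h
    norm_num at this
  · unfold Comb
    rw [← he x hx]
    ring

/-- no linear relation between `1, f, g, f g` on `U` -/
def Indep (f g : ℝ → ℝ) (U : Set ℝ) : Prop :=
  ∀ m : ℝ × ℝ × ℝ × ℝ, (∀ x ∈ U, Comb f g m x = 0) → m = 0

lemma comb_an {f g : ℝ → ℝ} {U : Set ℝ} (hf : AnalyticOnNhd ℝ f U) (hg : AnalyticOnNhd ℝ g U)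
    (m : ℝ × ℝ × ℝ × ℝ) : AnalyticOnNhd ℝ (Comb f g m) U := fun x hx =>
  ((analyticAt_const.add (analyticAt_const.mul (hf x hx))).add (analyticAt_const.mul (hg x hx))).add
    (analyticAt_const.mul ((hf x hx).mul (hg x hx)))

lemma W_an {f g : ℝ → ℝ} {U : Set ℝ} (hf : AnalyticOnNhd ℝ f U) (hg : AnalyticOnNhd ℝ g U) :
    AnalyticOnNhd ℝ (W f g) U := fun x hx =>
  (((hf x hx).deriv.pow 2).mul ((analyticAt_const.mul ((hg x hx).deriv.deriv.pow 2)).sub
    ((analyticAt_const.mul (hg x hx).deriv).mul (hg x hx).deriv.deriv.deriv))).sub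
  (((hg x hx).deriv.pow 2).mul ((analyticAt_const.mul ((hf x hx).deriv.deriv.pow 2)).sub
    ((analyticAt_const.mul (hf x hx).deriv).mul (hf x hx).deriv.deriv.deriv)))

/-- an analytic function on an interval which vanishes on a subinterval vanishes -/
lemma ident {φ : ℝ → ℝ} {U : Set ℝ} (hU : IsPreconnected U) (hφ : AnalyticOnNhd ℝ φ U) {a b : ℝ} (hab : a < b)
    (hs : Ioo a b ⊆ U) (h : ∀ x ∈ Ioo a b, φ x = 0) : ∀ x ∈ U, φ x = 0 := by
  have hx : (a + b) / 2 ∈ Ioo a b := ⟨by linarith, by linarith⟩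
  have := hφ.eqOn_zero_of_preconnected_of_eventuallyEq_zero hU (hs hx)
    (Filter.eventually_of_mem (Ioo_mem_nhds hx.1 hx.2) h)
  exact fun x hx => this hx

/-- the zeros of an analytic function on an interval are countable -/
lemma ctble {φ : ℝ → ℝ} {U : Set ℝ} (hU : IsPreconnected U) (hφ : AnalyticOnNhd ℝ φ U)
    (h : ¬ ∀ x ∈ U, φ x = 0) : {x | x ∈ U ∧ φ x = 0}.Countable := by
  push Not at h
  obtain ⟨x0, hx0, h⟩ := h
  have h1 := hφ.preimage_zero_mem_codiscreteWithin h hx0 ⟨⟨x0, hx0⟩, hU⟩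
  refine ((HereditarilyLindelofSpace.isLindelof _).countable_of_isDiscrete
    (isDiscrete_of_codiscreteWithin h1)).mono ?_
  rintro x ⟨hx, hx2⟩
  exact ⟨hx2, hx⟩

lemma W_ne {f g : ℝ → ℝ} {a b : ℝ} (hab : a < b) (hf : AnalyticOnNhd ℝ f (Ioo a b))
    (hg : AnalyticOnNhd ℝ g (Ioo a b)) (hI : Indep f g (Ioo a b)) :
    {x | x ∈ Ioo a b ∧ W f g x = 0}.Countable := by
  refine ctble isPreconnected_Ioo (W_an hf hg) fun h => ?_
  obtain ⟨a', b', ha, hab', hb, m, hm, h2⟩ := rel_of_W hab hf hg h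
  exact hm (hI m (ident isPreconnected_Ioo (comb_an hf hg m) hab' (Ioo_subset_Ioo ha hb) h2))

end Q271.LM
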